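import Pool.Agent.Lib.MP_5e5bb6_lc.HF

/-!
# BGS logic: choiceless computation with counting

Terms of the logic of Blass, Gurevich and Shelah over hereditarily finite objects, programs
(a step term, a halting term and an output term, as in Graedel and Grohe, Is polynomial time
choiceless?), and the class of structures that a program decides within given resources.
Boolean values are the objects `0 = ∅` and `1 = {∅}`.
-/

open Classical

namespace MP5e5

open HF

/-- Terms of BGS logic with counting (over one ternary relation symbol).  Variables are
de Bruijn indices; `comp s r φ` is the comprehension term `{s(v) : v ∈ r, φ(v)}`, which binds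
the variable `0` in `s` and `φ`. -/
inductive Tm : Type
  | var : ℕ → Tm
  | empty : Tm
  | atoms : Tm
  | pair : Tm → Tm → Tm
  | union : Tm → Tm
  | unique : Tm → Tm
  | card : Tm → Tm
  | eq : Tm → Tm → Tm
  | mem : Tm → Tm → Tm
  | rel : Tm → Tm → Tm → Tm
  | neg : Tm → Tm
  | conj : Tm → Tm → Tm
  | comp : Tm → Tm → Tm → Tm

section Eval

variable {A : Type}

/-- The empty set (the Boolean value `false`). -/
noncomputable def ff : HF A := mk ∅

/-- The set `{∅}` (the Boolean value `true`). -/
noncomputable def tt : HF A := mk {ff}

/-- The Boolean value of a proposition. -/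
noncomputable def bv (P : Prop) : HF A := if P then tt else ff

/-- The von Neumann ordinal `n`. -/
noncomputable def ord : ℕ → HF A
  | 0 => mk ∅
  | n + 1 => mk (insert (ord n) (ord n).elems)

/-- Extension of an environment by a value for the variable `0`. -/
def cons (y : HF A) (σ : ℕ → HF A) : ℕ → HF A
  | 0 => y
  | i + 1 => σ i

/-- The value of a term in the structure `(A, R)` under the environment `σ`.  A term counts as
true if its value is not the empty set. -/
noncomputable def eval [Fintype A] (R : A → A → A → Prop) : Tm → (ℕ → HF A) → HF A
  | .var i, σ => σ i
  | .empty, _ => ff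
  | .atoms, _ => mk (Finset.univ.image atom)
  | .pair a b, σ => mk {eval R a σ, eval R b σ}
  | .union a, σ => mk ((eval R a σ).elems.biUnion fun y => y.elems)
  | .unique a, σ => if h : ∃ y, (eval R a σ).elems = {y} then h.choose else ff
  | .card a, σ => ord (eval R a σ).elems.card
  | .eq a b, σ => bv (eval R a σ = eval R b σ)
  | .mem a b, σ => bv (eval R a σ ∈ eval R b σ)
  | .rel a b c, σ => bv (∃ x y z : A, eval R a σ = atom x ∧ eval R b σ = atom y ∧
      eval R c σ = atom z ∧ R x y z)
  | .neg a, σ => bv (eval R a σ = ff)
  | .conj a b, σ => bv (eval R a σ ≠ ff ∧ eval R b σ ≠ ff)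
  | .comp s r φ, σ =>
      mk (((eval R r σ).elems.filter fun y => eval R φ (cons y σ) ≠ ff).image
        fun y => eval R s (cons y σ))

end Eval

/-- A program of choiceless computation with counting: a step term, a halting condition and an
output condition, each with the current state as the value of its free variables. -/
structure Program where
  /-- the next state -/
  step : Tm
  /-- the halting condition -/
  halt : Tm
  /-- the output -/
  out : Tm

/-- The run of a program on the structure `(A, R)`: the state at time `0` is the empty set and
the state at time `i + 1` is the value of the step term at the state at time `i`. -/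
noncomputable def run (P : Program) {A : Type} [Fintype A] (R : A → A → A → Prop) : ℕ → HF A
  | 0 => ff
  | i + 1 => eval R P.step fun _ => run P R i

/-- The program `P` accepts `(A, R)` within the resources `N`, `ρ`: some state satisfies the
halting condition, the first such state satisfies the output condition, and up to this time all
states have a transitive closure with at most `N n` elements, where `n` is the number of atoms,
and in every `∈`-chain that starts with a state there are at most `ρ n` impure sets with at
least `n ^ (1 / 6)` elements.  There is no bound on the number of steps. -/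
def Accepts (P : Program) (N ρ : ℕ → ℕ) {A : Type} [Fintype A] (R : A → A → A → Prop) : Prop :=
  ∃ i, (∀ j < i, eval R P.halt (fun _ => run P R j) = ff) ∧
    eval R P.halt (fun _ => run P R i) ≠ ff ∧ eval R P.out (fun _ => run P R i) ≠ ff ∧
    ∀ j ≤ i, tcCard (run P R j) ≤ N (Fintype.card A) ∧
      nest (fun m => Fintype.card A ≤ m ^ 6) (run P R j) ≤ ρ (Fintype.card A)

/-- The relation `1IN3 = {(0,0,1), (0,1,0), (1,0,0)}` on `{0, 1}`. -/
def OneInThree (x y z : Bool) : Prop :=
  (x = false ∧ y = false ∧ z = true) ∨ (x = false ∧ y = true ∧ z = false) ∨
    (x = true ∧ y = false ∧ z = false)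

/-- `(A, R)` is a yes-instance of `CSP({0,1}; 1IN3)`: it has a homomorphism to `({0,1}; 1IN3)`. -/
def Sat {A : Type} (R : A → A → A → Prop) : Prop :=
  ∃ f : A → Bool, ∀ x y z, R x y z → OneInThree (f x) (f y) (f z)

/-- The program `P` decides `CSP({0,1}; 1IN3)` within the resources `N`, `ρ`: it accepts a finite
structure if and only if it is a yes-instance. -/
def Decides (P : Program) (N ρ : ℕ → ℕ) : Prop :=
  ∀ (A : Type) [Fintype A] (R : A → A → A → Prop), Accepts P N ρ R ↔ Sat R

end MP5e5
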