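import Pool.Agent.Lib.MP_5e5bb6_lc.Tr2

/-! # Transport commutes with the evaluation of terms: bounds and statement -/

open Classical

namespace MP5e5

open HF

/-- A bound for the supports of all objects which occur in the evaluation of a term. -/
def big : Tm → ℕ → ℕ
  | .var _, m => m
  | .empty, m => m
  | .atoms, m => m + 3
  | .pair a b, m => big a m + big b m
  | .union a, m => big a m
  | .unique a, m => big a m
  | .card a, m => big a m
  | .eq a b, m => big a m + big b m
  | .mem a b, m => big a m + big b m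
  | .rel a b c, m => big a m + big b m + big c m
  | .neg a, m => big a m
  | .conj a b, m => big a m + big b m
  | .comp s r φ, m => big s (m + big r m) + big φ (m + big r m) + big r m

theorem le_big (t : Tm) (m : ℕ) : m ≤ big t m := by
  induction t generalizing m with
  | var i => exact le_rfl
  | empty => exact le_rfl
  | atoms => simp only [big]; omega
  | pair a b iha ihb => have := iha m; simp only [big]; omega
  | union a ih => exact ih m
  | unique a ih => exact ih m
  | card a ih => exact ih m
  | eq a b iha ihb => have := iha m; simp only [big]; omega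
  | mem a b iha ihb => have := iha m; simp only [big]; omega
  | rel a b c iha ihb ihc => have := iha m; simp only [big]; omega
  | neg a ih => exact ih m
  | conj a b iha ihb => have := iha m; simp only [big]; omega
  | comp s r φ ihs ihr ihφ => have := ihr m; simp only [big]; omega

theorem big_linear (t : Tm) : ∃ C : ℕ, ∀ m, big t m ≤ C * (m + 1) := by
  have add2 : ∀ a b : Tm, (∃ C : ℕ, ∀ m, big a m ≤ C * (m + 1)) → (∃ C : ℕ, ∀ m, big b m ≤ C * (m + 1)) →
      ∃ C : ℕ, ∀ m, big a m + big b m ≤ C * (m + 1) := by
    rintro a b ⟨Ca, ha⟩ ⟨Cb, hb⟩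
    refine ⟨Ca + Cb, fun m => ?_⟩
    rw [add_mul]
    exact add_le_add (ha m) (hb m)
  induction t with
  | var i => exact ⟨1, fun m => by simp only [big]; omega⟩
  | empty => exact ⟨1, fun m => by simp only [big]; omega⟩
  | atoms => exact ⟨3, fun m => by simp only [big]; omega⟩
  | pair a b iha ihb => exact add2 a b iha ihb
  | union a ih => exact ih
  | unique a ih => exact ih
  | card a ih => exact ih
  | eq a b iha ihb => exact add2 a b iha ihb
  | mem a b iha ihb => exact add2 a b iha ihb
  | rel a b c iha ihb ihc =>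
      obtain ⟨C, hC⟩ := add2 a b iha ihb
      obtain ⟨D, hD⟩ := ihc
      refine ⟨C + D, fun m => ?_⟩
      rw [add_mul]
      exact add_le_add (hC m) (hD m)
  | neg a ih => exact ih
  | conj a b iha ihb => exact add2 a b iha ihb
  | comp s r φ ihs ihr ihφ =>
      obtain ⟨Cs, hs⟩ := ihs
      obtain ⟨Cr, hr⟩ := ihr
      obtain ⟨Cp, hp⟩ := ihφ
      refine ⟨Cs * (2 + Cr) + Cp * (2 + Cr) + Cr, fun m => ?_⟩
      have h1 : m + big r m + 1 ≤ (2 + Cr) * (m + 1) := by
        have := hr m
        nlinarith
      have h2 : big s (m + big r m) ≤ Cs * ((2 + Cr) * (m + 1)) :=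
        (hs _).trans (Nat.mul_le_mul_left _ h1)
      have h3 : big φ (m + big r m) ≤ Cp * ((2 + Cr) * (m + 1)) :=
        (hp _).trans (Nat.mul_le_mul_left _ h1)
      have h4 := hr m
      simp only [big]
      calc big s (m + big r m) + big φ (m + big r m) + big r m
          ≤ Cs * ((2 + Cr) * (m + 1)) + Cp * ((2 + Cr) * (m + 1)) + Cr * (m + 1) :=
            add_le_add (add_le_add h2 h3) h4
        _ = (Cs * (2 + Cr) + Cp * (2 + Cr) + Cr) * (m + 1) := by ring

namespace GS

variable {p : ℕ} [Fact p.Prime] {E A : Type} [Fintype E] [DecidableEq E] [Fintype A]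
  (G : GS p E A)

private theorem E1_elems_hact (g : E → ZMod p) (x : HF A) :
    (G.hact g x).elems = x.elems.image (G.hact g) := by
  rcases eq_atom_or_mk x with ⟨a, rfl⟩ | ⟨s, rfl⟩
  · simp
  · rw [hact_mk, elems_mk, elems_mk]

private theorem E1_mem_hact_iff {g : E → ZMod p} {x y : HF A} : G.hact g y ∈ G.hact g x ↔ y ∈ x := by
  constructor
  · intro h
    have h1 := G.mem_hact (g := -g) h
    rwa [hact_neg_cancel, hact_neg_cancel] at h1
  · exact fun h => G.mem_hact h

private theorem E1_hact_ff (g : E → ZMod p) : G.hact g (ff : HF A) = ff := by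
  simp [ff]

private theorem E1_hact_tt (g : E → ZMod p) : G.hact g (tt : HF A) = tt := by
  rw [tt, hact_mk, Finset.image_singleton, E1_hact_ff]

private theorem E1_hact_bv (g : E → ZMod p) (P : Prop) : G.hact g (bv P : HF A) = bv P := by
  unfold bv
  split_ifs
  · exact G.E1_hact_tt g
  · exact G.E1_hact_ff g

private theorem E1_hact_ord (g : E → ZMod p) : ∀ n, G.hact g (ord n : HF A) = ord n
  | 0 => by simp [ord]
  | n + 1 => by
      rw [ord, hact_mk, Finset.image_insert, E1_hact_ord g n, ← E1_elems_hact, E1_hact_ord g n]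

private theorem E1_hact_eq_ff {g : E → ZMod p} {x : HF A} : G.hact g x = ff ↔ x = ff := by
  conv_lhs => rw [← G.E1_hact_ff g]
  exact (G.hact_injective g).eq_iff

private theorem E1_cons (g : E → ZMod p) (y : HF A) (σ : ℕ → HF A) :
    (fun i => G.hact g (cons y σ i)) = cons (G.hact g y) (fun i => G.hact g (σ i)) := by
  funext i
  cases i <;> rfl

/-- Evaluation is invariant under the automorphisms. -/
theorem eval_hact (t : Tm) {h : E → ZMod p} (hM : h ∈ G.M) : ∀ σ : ℕ → HF A,
    eval G.R0 t (fun i => G.hact h (σ i)) = G.hact h (eval G.R0 t σ) := by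
  induction t with
  | var i => intro σ; rfl
  | empty => intro σ; exact (G.E1_hact_ff h).symm
  | atoms =>
      intro σ
      simp only [eval]
      rw [hact_mk]
      congr 1
      ext z
      simp only [Finset.mem_image, Finset.mem_univ, true_and]
      constructor
      · rintro ⟨a, rfl⟩
        refine ⟨atom (G.act (-h) a), ⟨_, rfl⟩, ?_⟩
        rw [hact_atom, ← G.act_add, add_neg_cancel, G.act_zero]
      · rintro ⟨_, ⟨a, rfl⟩, rfl⟩
        exact ⟨G.act h a, (G.hact_atom h a).symm⟩
  | pair a b iha ihb =>
      intro σ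
      simp only [eval]
      rw [iha, ihb, hact_mk, Finset.image_insert, Finset.image_singleton]
  | union a ih =>
      intro σ
      simp only [eval]
      rw [ih, hact_mk, E1_elems_hact]
      congr 1
      ext z
      simp only [Finset.mem_biUnion, Finset.mem_image]
      constructor
      · rintro ⟨_, ⟨y, hy, rfl⟩, hz⟩
        rw [E1_elems_hact, Finset.mem_image] at hz
        obtain ⟨w, hw, rfl⟩ := hz
        exact ⟨w, ⟨y, hy, hw⟩, rfl⟩
      · rintro ⟨w, ⟨y, hy, hw⟩, rfl⟩
        refine ⟨_, ⟨y, hy, rfl⟩, ?_⟩
        rw [E1_elems_hact]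
        exact Finset.mem_image_of_mem _ hw
  | unique a ih =>
      intro σ
      simp only [eval]
      rw [ih]
      by_cases hx : ∃ y, (eval G.R0 a σ).elems = {y}
      · have hx' : ∃ y, (G.hact h (eval G.R0 a σ)).elems = {y} := by
          obtain ⟨y, hy⟩ := hx
          exact ⟨G.hact h y, by rw [E1_elems_hact, hy, Finset.image_singleton]⟩
        rw [dif_pos hx, dif_pos hx']
        have h1 := hx.choose_spec
        have h2 := hx'.choose_spec
        have h3 : (G.hact h (eval G.R0 a σ)).elems = {G.hact h hx.choose} := by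
          rw [E1_elems_hact]
          conv_lhs => rw [h1]
          rw [Finset.image_singleton]
        exact Finset.singleton_injective (h2.symm.trans h3)
      · have hx' : ¬ ∃ y, (G.hact h (eval G.R0 a σ)).elems = {y} := by
          rintro ⟨y, hy⟩
          apply hx
          refine ⟨G.hact (-h) y, ?_⟩
          have h1 : (G.hact (-h) (G.hact h (eval G.R0 a σ))).elems = {G.hact (-h) y} := by
            rw [E1_elems_hact, hy, Finset.image_singleton]
          rwa [hact_neg_cancel] at h1
        rw [dif_neg hx, dif_neg hx', E1_hact_ff]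
  | card a ih =>
      intro σ
      simp only [eval]
      rw [ih, E1_hact_ord, E1_elems_hact, Finset.card_image_of_injective _ (G.hact_injective h)]
  | eq a b iha ihb =>
      intro σ
      simp only [eval]
      rw [iha, ihb, E1_hact_bv, (G.hact_injective h).eq_iff]
  | mem a b iha ihb =>
      intro σ
      simp only [eval]
      rw [iha, ihb, E1_hact_bv, E1_mem_hact_iff]
  | rel a b c iha ihb ihc =>
      intro σ
      simp only [eval]
      rw [iha, ihb, ihc, E1_hact_bv]
      congr 1
      apply propext
      have key : ∀ (x : HF A) (u : A), G.hact h x = atom u → x = atom (G.act (-h) u) := by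
        intro x u hx
        rw [← G.hact_neg_cancel h x, hx, hact_atom]
      constructor
      · rintro ⟨x, y, z, hx, hy, hz, hR⟩
        refine ⟨_, _, _, key _ _ hx, key _ _ hy, key _ _ hz, ?_⟩
        rw [G.R0_inv (G.M.neg_mem hM)]
        exact hR
      · rintro ⟨x, y, z, hx, hy, hz, hR⟩
        refine ⟨G.act h x, G.act h y, G.act h z, ?_, ?_, ?_, ?_⟩
        · rw [hx, hact_atom]
        · rw [hy, hact_atom]
        · rw [hz, hact_atom]
        · rw [G.R0_inv hM]
          exact hR
  | neg a ih =>
      intro σ
      simp only [eval]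
      rw [ih, E1_hact_bv, E1_hact_eq_ff]
  | conj a b iha ihb =>
      intro σ
      simp only [eval]
      rw [iha, ihb, E1_hact_bv]
      congr 1
      apply propext
      rw [ne_eq, ne_eq, ne_eq, ne_eq, E1_hact_eq_ff, E1_hact_eq_ff]
  | comp s r φ ihs ihr ihφ =>
      intro σ
      simp only [eval]
      rw [ihr, hact_mk, E1_elems_hact]
      congr 1
      ext z
      simp only [Finset.mem_image, Finset.mem_filter]
      constructor
      · rintro ⟨_, ⟨⟨y, hy, rfl⟩, hφ⟩, rfl⟩
        refine ⟨eval G.R0 s (cons y σ), ⟨y, ⟨hy, ?_⟩, rfl⟩, ?_⟩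
        · rw [← E1_cons, ihφ] at hφ
          exact fun h0 => hφ (G.E1_hact_eq_ff.mpr h0)
        · rw [← ihs, E1_cons]
      · rintro ⟨_, ⟨y, ⟨hy, hφ⟩, rfl⟩, rfl⟩
        refine ⟨G.hact h y, ⟨⟨y, hy, rfl⟩, ?_⟩, ?_⟩
        · rw [← E1_cons, ihφ]
          exact fun h0 => hφ (G.E1_hact_eq_ff.mp h0)
        · rw [← E1_cons, ihs]

/-- If the supports of the values of the variables lie in `T`, then `T` supports the value of
a term. -/
theorem supp_eval (t : Tm) {T : Finset E} {σ : ℕ → HF A} (hs : ∀ i, G.sp (σ i) ⊆ T) :
    G.Supp T (eval G.R0 t σ) := by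
  intro h hM h0
  rw [← G.eval_hact t hM]
  congr 1
  funext i
  exact G.supp_sp (σ i) h hM fun e he => h0 e (hs i he)

private theorem E1_HS_inv {s : Finset (HF A)} (h : ∀ g ∈ G.M, G.hact g (mk s) = mk s) {k : ℕ}
    (hs : ∀ y ∈ s, G.HS k y) : G.HS k (mk s) := by
  refine HS.mk s ?_ hs
  rw [G.sp_of_inv h]
  exact Nat.zero_le _

private theorem E1_HS_ff (k : ℕ) : G.HS k (ff : HF A) :=
  G.E1_HS_inv (fun g _ => G.E1_hact_ff g) (by simp)

private theorem E1_HS_tt (k : ℕ) : G.HS k (tt : HF A) := by
  refine G.E1_HS_inv (fun g _ => G.E1_hact_tt g) ?_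
  intro y hy
  rw [Finset.mem_singleton.mp hy]
  exact G.E1_HS_ff k

private theorem E1_HS_bv (k : ℕ) (P : Prop) : G.HS k (bv P : HF A) := by
  unfold bv
  split_ifs
  · exact G.E1_HS_tt k
  · exact G.E1_HS_ff k

private theorem E1_HS_ord (k : ℕ) : ∀ n, G.HS k (ord n : HF A)
  | 0 => G.E1_HS_ff k
  | n + 1 => by
      refine G.E1_HS_inv (fun g _ => G.E1_hact_ord g (n + 1)) ?_
      intro y hy
      rcases Finset.mem_insert.mp hy with rfl | hy
      · exact E1_HS_ord k n
      · exact G.HS_of_mem (E1_HS_ord k n) hy

/-- The values of terms have small supports. -/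
theorem eval_HS (t : Tm) : ∀ {m : ℕ} {T : Finset E} (_ : T.card ≤ m) {σ : ℕ → HF A}
    (_ : ∀ i, G.HS m (σ i)) (_ : ∀ i, G.sp (σ i) ⊆ T), G.HS (big t m) (eval G.R0 t σ) := by
  induction t with
  | var i => intro m T hT σ hσ hs; exact hσ i
  | empty => intro m T hT σ hσ hs; exact G.E1_HS_ff _
  | atoms =>
      intro m T hT σ hσ hs
      refine G.E1_HS_inv ?_ ?_
      · intro g hg
        exact (G.eval_hact .atoms hg σ).symm
      · intro y hy
        obtain ⟨a, -, rfl⟩ := Finset.mem_image.mp hy
        refine HS.atom a ?_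
        have := G.ns_card a
        simp only [big]
        omega
  | pair a b iha ihb =>
      intro m T hT σ hσ hs
      have h1 := iha hT hσ hs
      have h2 := ihb hT hσ hs
      have h3 := le_big a m
      refine HS.mk _ ?_ ?_
      · refine (G.sp_card_le (G.supp_eval (.pair a b) hs)).trans ?_
        simp only [big]
        omega
      · intro y hy
        rcases Finset.mem_insert.mp hy with rfl | hy
        · exact G.HS_mono (by simp only [big]; omega) h1
        · rw [Finset.mem_singleton.mp hy]
          exact G.HS_mono (by simp only [big]; omega) h2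
  | union a ih =>
      intro m T hT σ hσ hs
      have h1 := ih hT hσ hs
      have h3 := le_big a m
      refine HS.mk _ ?_ ?_
      · refine (G.sp_card_le (G.supp_eval (.union a) hs)).trans ?_
        simp only [big]
        omega
      · intro y hy
        obtain ⟨w, hw, hy⟩ := Finset.mem_biUnion.mp hy
        exact G.HS_of_mem (G.HS_of_mem h1 hw) hy
  | unique a ih =>
      intro m T hT σ hσ hs
      have h1 := ih hT hσ hs
      simp only [eval]
      split_ifs with hx
      · refine G.HS_of_mem h1 ?_
        have h2 : hx.choose ∈ ({hx.choose} : Finset (HF A)) := Finset.mem_singleton_self _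
        exact (Finset.ext_iff.mp hx.choose_spec hx.choose).mpr h2
      · exact G.E1_HS_ff _
  | card a ih => intro m T hT σ hσ hs; exact G.E1_HS_ord _ _
  | eq a b iha ihb => intro m T hT σ hσ hs; exact G.E1_HS_bv _ _
  | mem a b iha ihb => intro m T hT σ hσ hs; exact G.E1_HS_bv _ _
  | rel a b c iha ihb ihc => intro m T hT σ hσ hs; exact G.E1_HS_bv _ _
  | neg a ih => intro m T hT σ hσ hs; exact G.E1_HS_bv _ _
  | conj a b iha ihb => intro m T hT σ hσ hs; exact G.E1_HS_bv _ _
  | comp s r φ ihs ihr ihφ =>
      intro m T hT σ hσ hs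
      have h1 := ihr hT hσ hs
      have h3 := le_big r m
      refine HS.mk _ ?_ ?_
      · refine (G.sp_card_le (G.supp_eval (.comp s r φ) hs)).trans ?_
        simp only [big]
        omega
      · intro z hz
        obtain ⟨y, hy, rfl⟩ := Finset.mem_image.mp hz
        have hy' : y ∈ eval G.R0 r σ := (Finset.mem_filter.mp hy).1
        have h4 := G.HS_of_mem h1 hy'
        have h5 := G.sp_card h4
        have h6 : (T ∪ G.sp y).card ≤ m + big r m := (Finset.card_union_le _ _).trans (by omega)
        have h7 : ∀ i, G.HS (m + big r m) (cons y σ i) := by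
          intro i
          cases i with
          | zero => exact G.HS_mono (by omega) h4
          | succ i => exact G.HS_mono (by omega) (hσ i)
        have h8 : ∀ i, G.sp (cons y σ i) ⊆ T ∪ G.sp y := by
          intro i
          cases i with
          | zero => exact Finset.subset_union_right
          | succ i => exact (hs i).trans Finset.subset_union_left
        exact G.HS_mono (by simp only [big]; omega) (ihs h6 h7 h8)

/-- Transport commutes with the evaluation of the term `t`. -/
def TrOK (t : Tm) : Prop :=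
  ∀ (m : ℕ) (_ : 20 * (big t m + 1) < p) (T : Finset E) (_ : T.card ≤ m) (σ : ℕ → HF A)
    (_ : ∀ i, G.HS m (σ i)) (_ : ∀ i, G.sp (σ i) ⊆ T) (g : E → ZMod p)
    (_ : G.Gd (T ∪ G.sp (eval G.R0 t σ)) g),
    eval G.R1 t (fun i => G.F (σ i) g) = G.F (eval G.R0 t σ) g

theorem F_env {T : Finset E} {σ : ℕ → HF A} (hs : ∀ i, G.sp (σ i) ⊆ T) {g g' : E → ZMod p}
    (h : ∀ e ∈ T, g' e = g e) : (fun i => G.F (σ i) g') = fun i => G.F (σ i) g := by
  funext i
  exact G.F_congr fun e he => h e (hs i he)

end GS

end MP5e5
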