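import Pool.Agent.Lib.MP_5e5bb6_lc.Ev

/-! # Transport commutes with evaluation: all term constructors except comprehension, union -/

open Classical

namespace MP5e5

open HF

/-- The elements of `ord`. -/
theorem E2_mem_ord {A : Type} (n : ℕ) (y : HF A) (h : y ∈ (ord n : HF A)) : ∃ k, y = ord k := by
  induction n with
  | zero =>
    rw [ord, mem_mk] at h
    exact absurd h (Finset.notMem_empty _)
  | succ n ih =>
    rw [ord, mem_mk, Finset.mem_insert] at h
    rcases h with h | h
    · exact ⟨n, h⟩
    · exact ih h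

theorem E2_ord_ne {A : Type} (n : ℕ) (a : A) : (ord n : HF A) ≠ atom a := by
  cases n with
  | zero => rw [ord]; exact mk_ne_atom a _
  | succ n => rw [ord]; exact mk_ne_atom a _

theorem E2_TC_ord {A : Type} (n : ℕ) (y : HF A) (h : TC (ord n : HF A) y) : ∃ k, y = ord k := by
  induction h with
  | base h => exact E2_mem_ord n _ h
  | @step y z h1 h2 ih =>
    obtain ⟨k, rfl⟩ := ih
    exact E2_mem_ord k _ h2

theorem E2_pure_ord {A : Type} (n : ℕ) : Pure (ord n : HF A) := by
  refine ⟨E2_ord_ne n, fun a h => ?_⟩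
  obtain ⟨k, hk⟩ := E2_TC_ord n _ h
  exact E2_ord_ne k a hk.symm

theorem E2_ff_ord {A : Type} : (ff : HF A) = ord 0 := rfl

namespace GS

variable {p : ℕ} [Fact p.Prime] {E A : Type} [Fintype E] [DecidableEq E] [Fintype A]
  (G : GS p E A)

/-- Transport of a set along a transformation which is good for all its elements. -/
theorem E2_F_image (s : Finset (HF A)) (g : E → ZMod p)
    (hg : ∀ y ∈ s, G.Gd (G.sp (mk s) ∪ G.sp y) g) : G.F (mk s) g = mk (s.image fun y => G.F y g) := by
  apply HF.ext_set (F_isSet G (fun a => mk_ne_atom a s)) (fun a => mk_ne_atom a _)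
  intro z
  rw [G.mem_F, mem_mk, Finset.mem_image]
  constructor
  · rintro ⟨y, hy, g', h1, h2, rfl⟩
    rw [mem_mk] at hy
    obtain ⟨h, hM, hh⟩ := G.diff h1 (hg y hy)
    have h0 : ∀ e ∈ G.sp (mk s), h e = 0 := by
      intro e he
      have e1 := hh e (Finset.mem_union_left _ he)
      rw [h2 e he] at e1
      have e2 : g e + h e = g e + 0 := by rw [add_zero]; exact e1.symm
      exact add_left_cancel e2
    have hx : G.hact h (mk s) = mk s := G.supp_sp (mk s) h hM h0
    have hy' : G.hact h y ∈ mk s := by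
      have := G.mem_hact (g := h) (mem_mk.mpr hy)
      rwa [hx] at this
    refine ⟨G.hact h y, mem_mk.mp hy', ?_⟩
    rw [G.F_hact g hM]
    symm
    apply G.F_congr
    intro e he
    rw [hh e (Finset.mem_union_right _ he)]
    rfl
  · rintro ⟨y, hy, rfl⟩
    exact ⟨y, mem_mk.mpr hy, g, hg y hy, fun e _ => rfl, rfl⟩

theorem E2_F_empty (g : E → ZMod p) : G.F (mk ∅) g = mk ∅ := by
  rw [G.E2_F_image ∅ g (fun y hy => absurd hy (Finset.notMem_empty y))]
  rfl

theorem E2_F_ff (g : E → ZMod p) : G.F ff g = ff := G.E2_F_empty g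

theorem E2_ext {S T : Finset E} {g : E → ZMod p} (h : G.Gd S g) (hST : S ⊆ T) {k : ℕ} (hT : T.card ≤ k)
    (hk : k < p) : ∃ g', G.Gd T g' ∧ ∀ e ∈ S, g' e = g e := G.ext h hST (lt_of_le_of_lt hT hk)

theorem tr_var (i : ℕ) : G.TrOK (.var i) := by
  intro m _ T _ σ _ _ g _
  rfl

theorem tr_empty : G.TrOK .empty := by
  intro m _ T _ σ _ _ g _
  show ff = G.F ff g
  exact (G.E2_F_ff g).symm

/-- The support of the value of a set term. -/
theorem E2_sp_le {t : Tm} {T : Finset E} {σ : ℕ → HF A} (hs : ∀ i, G.sp (σ i) ⊆ T) {s : Finset (HF A)}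
    (h : eval G.R0 t σ = mk s) : (G.sp (eval G.R0 t σ)).card ≤ T.card := by
  have h1 := G.supp_eval t hs
  rw [h] at h1 ⊢
  exact G.sp_card_le h1

theorem tr_atoms : G.TrOK .atoms := by
  intro m hm T hT σ hσ hs g hg
  have hv : eval G.R0 .atoms σ = mk (Finset.univ.image atom) := rfl
  have hcard := G.E2_sp_le hs hv
  have hbig : big .atoms m = m + 3 := rfl
  rw [hbig] at hm
  show mk (Finset.univ.image atom) = G.F (eval G.R0 .atoms σ) g
  rw [hv] at hg hcard ⊢
  apply HF.ext_set (fun a => mk_ne_atom a _) (F_isSet G (fun a => mk_ne_atom a _))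
  intro z
  rw [G.mem_F, mem_mk, Finset.mem_image]
  constructor
  · rintro ⟨b, -, rfl⟩
    have h1 : (G.sp (mk (Finset.univ.image atom)) ∪ G.ns b).card ≤ m + 3 := by
      refine (Finset.card_union_le _ _).trans ?_
      have := G.ns_card b
      omega
    obtain ⟨g', hg', hg2⟩ := G.E2_ext (G.anti Finset.subset_union_right hg)
      (Finset.subset_union_left (s₂ := G.ns b)) h1 (by omega)
    have hact : G.act g' (G.act (-g') b) = b := by
      rw [← G.act_add, add_neg_cancel, G.act_zero]
    refine ⟨atom (G.act (-g') b), mem_mk.mpr (Finset.mem_image_of_mem _ (Finset.mem_univ _)), g', ?_, hg2, ?_⟩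
    · rw [G.sp_atom, G.ns_act]
      exact hg'
    · rw [G.F_atom, hact]
  · rintro ⟨y, hy, g', -, -, rfl⟩
    rw [mem_mk, Finset.mem_image] at hy
    obtain ⟨a, -, rfl⟩ := hy
    exact ⟨G.act g' a, Finset.mem_univ _, (G.F_atom a g').symm⟩

theorem tr_pair {a b : Tm} (ha : G.TrOK a) (hb : G.TrOK b) : G.TrOK (.pair a b) := by
  intro m hm T hT σ hσ hs g hg
  have hbig : big (.pair a b) m = big a m + big b m := rfl
  rw [hbig] at hm
  have hv : eval G.R0 (.pair a b) σ = mk {eval G.R0 a σ, eval G.R0 b σ} := rfl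
  have hcv := G.E2_sp_le hs hv
  have hca := G.sp_card (G.eval_HS a hT hσ hs)
  have hcb := G.sp_card (G.eval_HS b hT hσ hs)
  have hla := le_big a m
  obtain ⟨g1, hg1, h1⟩ := G.E2_ext (T := T ∪ G.sp (eval G.R0 (.pair a b) σ) ∪
      (G.sp (eval G.R0 a σ) ∪ G.sp (eval G.R0 b σ))) (k := 2 * m + (big a m + big b m)) hg
    Finset.subset_union_left (by
      refine (Finset.card_union_le _ _).trans ?_
      have e1 := Finset.card_union_le T (G.sp (eval G.R0 (.pair a b) σ))
      have e2 := Finset.card_union_le (G.sp (eval G.R0 a σ)) (G.sp (eval G.R0 b σ))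
      omega) (by omega)
  have henv : (fun i => G.F (σ i) g1) = fun i => G.F (σ i) g :=
    G.F_env hs fun e he => h1 e (Finset.mem_union_left _ he)
  have hF : G.F (eval G.R0 (.pair a b) σ) g = G.F (eval G.R0 (.pair a b) σ) g1 :=
    G.F_congr fun e he => (h1 e (Finset.mem_union_right _ he)).symm
  have ea := ha m (by omega) T hT σ hσ hs g1 (G.anti (by
    intro e he
    rcases Finset.mem_union.1 he with he | he
    · exact Finset.mem_union_left _ (Finset.mem_union_left _ he)
    · exact Finset.mem_union_right _ (Finset.mem_union_left _ he)) hg1)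
  have eb := hb m (by omega) T hT σ hσ hs g1 (G.anti (by
    intro e he
    rcases Finset.mem_union.1 he with he | he
    · exact Finset.mem_union_left _ (Finset.mem_union_left _ he)
    · exact Finset.mem_union_right _ (Finset.mem_union_right _ he)) hg1)
  rw [henv] at ea eb
  show mk {eval G.R1 a (fun i => G.F (σ i) g), eval G.R1 b (fun i => G.F (σ i) g)} = _
  rw [ea, eb, hF, hv, G.E2_F_image]
  · congr 1
    rw [Finset.image_insert, Finset.image_singleton]
  · intro y hy
    rw [Finset.mem_insert, Finset.mem_singleton] at hy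
    rw [hv] at hg1
    apply G.anti _ hg1
    intro e he
    rcases Finset.mem_union.1 he with he | he
    · exact Finset.mem_union_left _ (Finset.mem_union_right _ he)
    · rcases hy with rfl | rfl
      · exact Finset.mem_union_right _ (Finset.mem_union_left _ he)
      · exact Finset.mem_union_right _ (Finset.mem_union_right _ he)

/-- Reduction to a transformation which is good for the value of `a` too. -/
theorem E2_one {a t : Tm} (ha : G.TrOK a) {m : ℕ} (hm : 20 * (big a m + 1) < p) {T : Finset E}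
    (hT : T.card ≤ m) {σ : ℕ → HF A} (hσ : ∀ i, G.HS m (σ i)) (hs : ∀ i, G.sp (σ i) ⊆ T)
    {g : E → ZMod p} (hg : G.Gd (T ∪ G.sp (eval G.R0 t σ)) g)
    (ht : (G.sp (eval G.R0 t σ)).card ≤ big a m) :
    ∃ g1, G.Gd (T ∪ G.sp (eval G.R0 t σ) ∪ G.sp (eval G.R0 a σ)) g1 ∧
      (∀ e ∈ T ∪ G.sp (eval G.R0 t σ), g1 e = g e) ∧
      eval G.R1 a (fun i => G.F (σ i) g) = G.F (eval G.R0 a σ) g1 ∧
      (G.F (eval G.R0 a σ) g1).elems.card = (eval G.R0 a σ).elems.card := by
  have hHS := G.eval_HS a hT hσ hs
  have hca := G.sp_card hHS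
  have hla := le_big a m
  obtain ⟨g1, hg1, h1⟩ := G.E2_ext (T := T ∪ G.sp (eval G.R0 t σ) ∪ G.sp (eval G.R0 a σ))
    (k := m + big a m + big a m) hg Finset.subset_union_left (by
      refine (Finset.card_union_le _ _).trans ?_
      have e1 := Finset.card_union_le T (G.sp (eval G.R0 t σ))
      omega) (by omega)
  have henv : (fun i => G.F (σ i) g1) = fun i => G.F (σ i) g :=
    G.F_env hs fun e he => h1 e (Finset.mem_union_left _ he)
  have ea := ha m hm T hT σ hσ hs g1 (G.anti (by
    intro e he
    rcases Finset.mem_union.1 he with he | he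
    · exact Finset.mem_union_left _ (Finset.mem_union_left _ he)
    · exact Finset.mem_union_right _ he) hg1)
  rw [henv] at ea
  exact ⟨g1, hg1, h1, ea, G.F_card (k := big a m) (by omega) hHS
    (G.anti Finset.subset_union_right hg1)⟩

theorem E2_sp_ff : G.sp (ff : HF A) = ∅ := by
  apply G.sp_of_inv
  intro h _
  show G.hact h (mk ∅) = mk ∅
  rw [hact_mk, Finset.image_empty]

theorem E2_sp_ord (n : ℕ) : G.sp (ord n : HF A) = ∅ :=
  G.sp_of_inv fun h _ => G.hact_pure (E2_pure_ord n) h

theorem tr_unique {a : Tm} (ha : G.TrOK a) : G.TrOK (.unique a) := by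
  intro m hm T hT σ hσ hs g hg
  have hbig : big (.unique a) m = big a m := rfl
  rw [hbig] at hm
  have hHS := G.eval_HS a hT hσ hs
  have hHSu := G.eval_HS (.unique a) hT hσ hs
  rw [hbig] at hHSu
  obtain ⟨g1, hg1, h1, ea, hc⟩ := G.E2_one (t := .unique a) ha hm hT hσ hs hg (G.sp_card hHSu)
  by_cases h : ∃ y, (eval G.R0 a σ).elems = {y}
  · have hv : eval G.R0 (.unique a) σ = h.choose := by
      show (if h : ∃ y, (eval G.R0 a σ).elems = {y} then h.choose else ff) = h.choose
      rw [dif_pos h]
    have hy := h.choose_spec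
    set y := h.choose with hydef
    -- the value of `a` is the set `{y}`
    have hset : eval G.R0 a σ = mk {y} := by
      rcases eq_atom_or_mk (eval G.R0 a σ) with ⟨b, hb⟩ | ⟨s, hs'⟩
      · rw [hb, elems_atom] at hy
        exact absurd hy.symm (Finset.singleton_ne_empty y)
      · rw [hs', elems_mk] at hy
        rw [hs', hy]
    have hF : G.F (eval G.R0 a σ) g1 = mk {G.F y g1} := by
      rw [hset, G.E2_F_image]
      · rw [Finset.image_singleton]
      · intro z hz
        rw [Finset.mem_singleton] at hz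
        subst hz
        rw [hv, hset] at hg1
        apply G.anti _ hg1
        intro e he
        rcases Finset.mem_union.1 he with he | he
        · exact Finset.mem_union_right _ he
        · exact Finset.mem_union_left _ (Finset.mem_union_right _ he)
    have hu : G.F (eval G.R0 (.unique a) σ) g = G.F y g1 := by
      rw [hv]
      apply G.F_congr
      intro e he
      rw [h1 e (Finset.mem_union_right _ (by rw [hv]; exact he))]
    rw [hu]
    show (if h : ∃ y, (eval G.R1 a (fun i => G.F (σ i) g)).elems = {y} then h.choose else ff) = G.F y g1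
    have hel : (eval G.R1 a (fun i => G.F (σ i) g)).elems = {G.F y g1} := by
      rw [ea, hF, elems_mk]
    have hex : ∃ y, (eval G.R1 a (fun i => G.F (σ i) g)).elems = {y} := ⟨_, hel⟩
    rw [dif_pos hex]
    exact Finset.singleton_injective (hex.choose_spec.symm.trans hel)
  · have hv : eval G.R0 (.unique a) σ = ff := by
      show (if h : ∃ y, (eval G.R0 a σ).elems = {y} then h.choose else ff) = ff
      rw [dif_neg h]
    rw [hv, G.E2_F_ff]
    show (if h : ∃ y, (eval G.R1 a (fun i => G.F (σ i) g)).elems = {y} then h.choose else ff) = ff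
    rw [dif_neg]
    rintro ⟨z, hz⟩
    rw [ea] at hz
    rw [hz, Finset.card_singleton] at hc
    exact h (Finset.card_eq_one.1 hc.symm)

theorem tr_card {a : Tm} (ha : G.TrOK a) : G.TrOK (.card a) := by
  intro m hm T hT σ hσ hs g hg
  have hbig : big (.card a) m = big a m := rfl
  rw [hbig] at hm
  have hv : eval G.R0 (.card a) σ = ord (eval G.R0 a σ).elems.card := rfl
  obtain ⟨g1, hg1, h1, ea, hc⟩ := G.E2_one (t := .card a) ha hm hT hσ hs hg (by
    rw [hv, G.E2_sp_ord]
    simp)
  show ord (eval G.R1 a (fun i => G.F (σ i) g)).elems.card = _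
  rw [ea, hc, hv]
  exact (G.F_pure (E2_pure_ord _) (G.anti (Finset.empty_subset _) hg)).symm

end GS

end MP5e5
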