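import Pool.Agent.Lib.MP_5e5bb6_lc.EvC

/-! # Transport commutes with evaluation: comprehension and union -/

open Classical

namespace MP5e5

open HF

namespace GS

variable {p : ℕ} [Fact p.Prime] {E A : Type} [Fintype E] [DecidableEq E] [Fintype A]
  (G : GS p E A)

theorem tr_union {a : Tm} (ha : G.TrOK a) : G.TrOK (.union a) := by
  intro m hm T hT σ hσ hs g hg
  have hbig : big (.union a) m = big a m := rfl
  rw [hbig] at hm
  have hmb := le_big a m
  obtain ⟨va, hva⟩ : ∃ va, va = eval G.R0 a σ := ⟨_, rfl⟩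
  obtain ⟨v, hv⟩ : ∃ v, v = eval G.R0 (.union a) σ := ⟨_, rfl⟩
  have hv' : v = mk (va.elems.biUnion fun y => y.elems) := by
    rw [hv, hva]
    rfl
  have hHSa : G.HS (big a m) va := by
    rw [hva]
    exact G.eval_HS a hT hσ hs
  have hHSv : G.HS (big a m) v := by
    rw [hv]
    exact G.eval_HS (.union a) hT hσ hs
  have hSa : G.Supp T va := by
    rw [hva]
    exact G.supp_eval a hs
  have hSv : G.Supp T v := by
    rw [hv]
    exact G.supp_eval (.union a) hs
  have hcv := G.sp_card hHSv
  have hca := G.sp_card hHSa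
  rw [← hv] at hg ⊢
  obtain ⟨g1, hg1, hg1'⟩ := G.ext (T := (T ∪ G.sp v) ∪ G.sp va) hg Finset.subset_union_left (by
    have h1 := Finset.card_union_le (T ∪ G.sp v) (G.sp va)
    have h2 := Finset.card_union_le T (G.sp v)
    omega)
  have hgT : ∀ e ∈ T, g1 e = g e := fun e he => hg1' e (Finset.mem_union_left _ he)
  have hE := G.F_env hs hgT
  have hFv : G.F v g = G.F v g1 :=
    G.F_congr fun e he => (hg1' e (Finset.mem_union_right _ he)).symm
  have hR1 : eval G.R1 a (fun i => G.F (σ i) g) = G.F va g1 := by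
    rw [← hE, hva]
    refine ha m hm T hT σ hσ hs g1 ?_
    rw [← hva]
    refine G.anti ?_ hg1
    exact Finset.union_subset_union_left Finset.subset_union_left
  have hL : eval G.R1 (.union a) (fun i => G.F (σ i) g) =
      mk ((G.F va g1).elems.biUnion fun y => y.elems) := by
    rw [← hR1]
    rfl
  rw [hL, hFv]
  refine HF.ext_set (fun b => mk_ne_atom _ _) (G.F_isSet fun b => by rw [hv']; exact mk_ne_atom _ _)
    fun z => ?_
  have hgv : G.Gd (T ∪ G.sp v) g1 := G.anti Finset.subset_union_left hg1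
  have hga : G.Gd (T ∪ G.sp va) g1 :=
    G.anti (Finset.union_subset_union_left Finset.subset_union_left) hg1
  rw [G.mem_F_iff hHSv hSv (by omega) hgv, mem_mk, Finset.mem_biUnion]
  constructor
  · rintro ⟨w, hw, hz⟩
    obtain ⟨u, hu, g2, hg2, hg2', rfl⟩ := (G.mem_F_iff hHSa hSa (by omega) hga).1 hw
    have hHSu := G.HS_of_mem hHSa hu
    have hcu := G.sp_card hHSu
    have hSu : G.Supp (T ∪ G.sp u) u := fun h hh h0 =>
      G.supp_sp u h hh fun e he => h0 e (Finset.mem_union_right _ he)
    have hz' : z ∈ G.F u g2 := hz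
    obtain ⟨y, hy, g3, hg3, hg3', rfl⟩ := (G.mem_F_iff hHSu hSu (by
      have h2 := Finset.card_union_le T (G.sp u)
      omega) (by
      refine G.anti ?_ hg2
      exact Finset.union_subset (Finset.Subset.refl _) Finset.subset_union_right)).1 hz'
    refine ⟨y, ?_, g3, ?_, ?_, rfl⟩
    · rw [hv', mem_mk, Finset.mem_biUnion]
      exact ⟨u, hu, hy⟩
    · exact G.anti (Finset.union_subset_union_left Finset.subset_union_left) hg3
    · intro e he
      rw [hg3' e (Finset.mem_union_left _ he), hg2' e he]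
  · rintro ⟨y, hy, g', hg', hg'', rfl⟩
    rw [hv', mem_mk, Finset.mem_biUnion] at hy
    obtain ⟨u, hu, hyu⟩ := hy
    have hyu' : y ∈ u := hyu
    have hHSu := G.HS_of_mem hHSa (y := u) hu
    have hcu := G.sp_card hHSu
    have hcy := G.sp_card (G.HS_of_mem hHSu hyu')
    have hSu : G.Supp (T ∪ G.sp u) u := fun h hh h0 =>
      G.supp_sp u h hh fun e he => h0 e (Finset.mem_union_right _ he)
    obtain ⟨g3, hg3, hg3'⟩ := G.ext (T := (T ∪ G.sp y) ∪ G.sp u) hg' Finset.subset_union_left (by
      have h1 := Finset.card_union_le (T ∪ G.sp y) (G.sp u)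
      have h2 := Finset.card_union_le T (G.sp y)
      omega)
    have hFy : G.F y g' = G.F y g3 :=
      G.F_congr fun e he => (hg3' e (Finset.mem_union_right _ he)).symm
    refine ⟨G.F u g3, ?_, ?_⟩
    · refine (G.mem_F_iff hHSa hSa (by omega) hga).2 ⟨u, hu, g3, ?_, ?_, rfl⟩
      · exact G.anti (Finset.union_subset_union_left Finset.subset_union_left) hg3
      · intro e he
        rw [hg3' e (Finset.mem_union_left _ he), hg'' e he]
    · change G.F y g' ∈ G.F u g3
      rw [hFy]
      refine (G.mem_F_iff hHSu hSu (by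
        have h2 := Finset.card_union_le T (G.sp u)
        omega) ?_).2 ⟨y, hyu', g3, ?_, fun _ _ => rfl, rfl⟩
      · refine G.anti ?_ hg3
        intro e he
        simp only [Finset.mem_union] at he ⊢
        tauto
      · refine G.anti ?_ hg3
        intro e he
        simp only [Finset.mem_union] at he ⊢
        tauto

theorem tr_comp {s r φ : Tm} (hs : G.TrOK s) (hr : G.TrOK r) (hφ : G.TrOK φ) :
    G.TrOK (.comp s r φ) := by
  intro m hm T hT σ hσ hsp g hg
  have hbig : big (.comp s r φ) m = big s (m + big r m) + big φ (m + big r m) + big r m := rfl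
  obtain ⟨m', hm'⟩ : ∃ m', m' = m + big r m := ⟨_, rfl⟩
  obtain ⟨K, hK⟩ : ∃ K, K = big (.comp s r φ) m := ⟨_, rfl⟩
  rw [← hK] at hm
  rw [← hm', ← hK] at hbig
  have hmb := le_big r m
  have hms := le_big s m'
  obtain ⟨vr, hvr⟩ : ∃ vr, vr = eval G.R0 r σ := ⟨_, rfl⟩
  obtain ⟨v, hv⟩ : ∃ v, v = eval G.R0 (.comp s r φ) σ := ⟨_, rfl⟩
  have hv' : v = mk ((vr.elems.filter fun y => eval G.R0 φ (cons y σ) ≠ ff).image
      fun y => eval G.R0 s (cons y σ)) := by
    rw [hv, hvr]
    rfl
  have hHSr : G.HS (big r m) vr := by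
    rw [hvr]
    exact G.eval_HS r hT hσ hsp
  have hHSv : G.HS K v := by
    rw [hv, hK]
    exact G.eval_HS (.comp s r φ) hT hσ hsp
  have hSr : G.Supp T vr := by
    rw [hvr]
    exact G.supp_eval r hsp
  have hSv : G.Supp T v := by
    rw [hv]
    exact G.supp_eval (.comp s r φ) hsp
  have hcv := G.sp_card hHSv
  have hcr := G.sp_card hHSr
  rw [← hv] at hg ⊢
  obtain ⟨g1, hg1, hg1'⟩ := G.ext (T := (T ∪ G.sp v) ∪ G.sp vr) hg Finset.subset_union_left (by
    have h1 := Finset.card_union_le (T ∪ G.sp v) (G.sp vr)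
    have h2 := Finset.card_union_le T (G.sp v)
    omega)
  have hgT : ∀ e ∈ T, g1 e = g e := fun e he => hg1' e (Finset.mem_union_left _ he)
  have hE := G.F_env hsp hgT
  have hFv : G.F v g = G.F v g1 :=
    G.F_congr fun e he => (hg1' e (Finset.mem_union_right _ he)).symm
  have hR1 : eval G.R1 r (fun i => G.F (σ i) g1) = G.F vr g1 := by
    rw [hvr]
    refine hr m (by omega) T hT σ hσ hsp g1 ?_
    rw [← hvr]
    refine G.anti ?_ hg1
    exact Finset.union_subset_union_left Finset.subset_union_left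
  have hL : eval G.R1 (.comp s r φ) (fun i => G.F (σ i) g) =
      mk (((G.F vr g1).elems.filter fun y =>
        eval G.R1 φ (cons y (fun i => G.F (σ i) g1)) ≠ ff).image
        fun y => eval G.R1 s (cons y (fun i => G.F (σ i) g1))) := by
    rw [← hE, ← hR1]
    rfl
  rw [hL, hFv]
  have hgv : G.Gd (T ∪ G.sp v) g1 := G.anti Finset.subset_union_left hg1
  have hgr : G.Gd (T ∪ G.sp vr) g1 :=
    G.anti (Finset.union_subset_union_left Finset.subset_union_left) hg1
  -- the environments
  have hkey : ∀ y ∈ vr, ∀ g5, G.Gd ((T ∪ G.sp y) ∪ G.sp (eval G.R0 s (cons y σ))) g5 →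
      (∀ e ∈ T, g5 e = g1 e) →
      (eval G.R1 φ (cons (G.F y g5) (fun i => G.F (σ i) g1)) = ff ↔
        eval G.R0 φ (cons y σ) = ff) ∧
      eval G.R1 s (cons (G.F y g5) (fun i => G.F (σ i) g1)) =
        G.F (eval G.R0 s (cons y σ)) g5 := by
    intro y hy g5 hg5 hg5'
    have hE5 := G.F_env hsp hg5'
    have hcons : cons (G.F y g5) (fun i => G.F (σ i) g1) = fun i => G.F (cons y σ i) g5 := by
      rw [← hE5]
      funext i
      cases i with
      | zero => rfl
      | succ i => rfl
    have hHSy := G.HS_of_mem hHSr hy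
    have hcy := G.sp_card hHSy
    have hT' : (T ∪ G.sp y).card ≤ m' := by
      have h2 := Finset.card_union_le T (G.sp y)
      omega
    have hσ' : ∀ i, G.HS m' (cons y σ i) := by
      intro i
      cases i with
      | zero => exact G.HS_mono (by omega) hHSy
      | succ i => exact G.HS_mono (by omega) (hσ i)
    have hsp' : ∀ i, G.sp (cons y σ i) ⊆ T ∪ G.sp y := by
      intro i
      cases i with
      | zero => exact Finset.subset_union_right
      | succ i => exact (hsp i).trans Finset.subset_union_left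
    rw [hcons]
    exact ⟨G.tr_truth hφ (by omega) hT' hσ' hsp' (G.anti Finset.subset_union_left hg5),
      hs m' (by omega) _ hT' _ hσ' hsp' g5 hg5⟩
  have hcs : ∀ y ∈ vr, (G.sp (eval G.R0 s (cons y σ))).card ≤ big s m' := by
    intro y hy
    have hHSy := G.HS_of_mem hHSr hy
    have hcy := G.sp_card hHSy
    refine G.sp_card (G.eval_HS s (T := T ∪ G.sp y) ?_ ?_ ?_)
    · have h2 := Finset.card_union_le T (G.sp y)
      omega
    · intro i
      cases i with
      | zero => exact G.HS_mono (by omega) hHSy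
      | succ i => exact G.HS_mono (by omega) (hσ i)
    · intro i
      cases i with
      | zero => exact Finset.subset_union_right
      | succ i => exact (hsp i).trans Finset.subset_union_left
  refine HF.ext_set (fun b => mk_ne_atom _ _) (G.F_isSet fun b => by rw [hv']; exact mk_ne_atom _ _)
    fun w => ?_
  rw [G.mem_F_iff hHSv hSv (by omega) hgv, mem_mk, Finset.mem_image]
  constructor
  · rintro ⟨z, hz, rfl⟩
    rw [Finset.mem_filter] at hz
    obtain ⟨hz, hzφ⟩ := hz
    obtain ⟨y, hy, g2, hg2, hg2', rfl⟩ := (G.mem_F_iff hHSr hSr (by omega) hgr).1 hz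
    have hcy := G.sp_card (G.HS_of_mem hHSr hy)
    have hcu := hcs y hy
    obtain ⟨g5, hg5, hg5'⟩ := G.ext (T := (T ∪ G.sp y) ∪ G.sp (eval G.R0 s (cons y σ))) hg2
      Finset.subset_union_left (by
        have h1 := Finset.card_union_le (T ∪ G.sp y) (G.sp (eval G.R0 s (cons y σ)))
        have h2 := Finset.card_union_le T (G.sp y)
        omega)
    have hFy : G.F y g2 = G.F y g5 :=
      G.F_congr fun e he => (hg5' e (Finset.mem_union_right _ he)).symm
    have hg5T : ∀ e ∈ T, g5 e = g1 e := by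
      intro e he
      rw [hg5' e (Finset.mem_union_left _ he), hg2' e he]
    obtain ⟨h1, h2⟩ := hkey y hy g5 hg5 hg5T
    rw [hFy] at hzφ ⊢
    refine ⟨eval G.R0 s (cons y σ), ?_, g5, ?_, hg5T, h2⟩
    · rw [hv', mem_mk, Finset.mem_image]
      exact ⟨y, Finset.mem_filter.2 ⟨hy, fun h => hzφ (h1.2 h)⟩, rfl⟩
    · exact G.anti (Finset.union_subset_union_left Finset.subset_union_left) hg5
  · rintro ⟨u, hu, g', hg', hg'', rfl⟩
    rw [hv', mem_mk, Finset.mem_image] at hu
    obtain ⟨y, hy, rfl⟩ := hu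
    rw [Finset.mem_filter] at hy
    obtain ⟨hy, hyφ⟩ := hy
    have hy' : y ∈ vr := hy
    have hcy := G.sp_card (G.HS_of_mem hHSr hy')
    have hcu := hcs y hy'
    obtain ⟨g5, hg5, hg5'⟩ := G.ext (T := (T ∪ G.sp (eval G.R0 s (cons y σ))) ∪ G.sp y) hg'
      Finset.subset_union_left (by
        have h1 := Finset.card_union_le (T ∪ G.sp (eval G.R0 s (cons y σ))) (G.sp y)
        have h2 := Finset.card_union_le T (G.sp (eval G.R0 s (cons y σ)))
        omega)
    have hFu : G.F (eval G.R0 s (cons y σ)) g' = G.F (eval G.R0 s (cons y σ)) g5 :=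
      G.F_congr fun e he => (hg5' e (Finset.mem_union_right _ he)).symm
    have hg5T : ∀ e ∈ T, g5 e = g1 e := by
      intro e he
      rw [hg5' e (Finset.mem_union_left _ he), hg'' e he]
    have hg5G : G.Gd ((T ∪ G.sp y) ∪ G.sp (eval G.R0 s (cons y σ))) g5 := by
      refine G.anti ?_ hg5
      intro e he
      simp only [Finset.mem_union] at he ⊢
      tauto
    obtain ⟨h1, h2⟩ := hkey y hy' g5 hg5G hg5T
    refine ⟨G.F y g5, Finset.mem_filter.2 ⟨?_, fun h => hyφ (h1.1 h)⟩, ?_⟩
    · refine (G.mem_F_iff hHSr hSr (by omega) hgr).2 ⟨y, hy', g5, ?_, hg5T, rfl⟩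
      exact G.anti Finset.subset_union_left hg5G
    · rw [h2, hFu]

end GS

end MP5e5
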