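import Mathlib

/-!
# Hereditarily finite objects over a set of atoms

`HF A` is the type of hereditarily finite objects over the type `A` of atoms: an object is
either an atom or a finite set of objects.  It is constructed as the quotient of a type of
finitely branching trees by extensional equality.
-/

open Classical

namespace MP5e5

/-- Finitely branching trees with leaves in `A` (codes of hereditarily finite objects). -/
inductive PHF (A : Type) : Type
  | atom : A → PHF A
  | node : (n : ℕ) → (Fin n → PHF A) → PHF A

namespace PHF

variable {A B : Type}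

/-- Extensional equality of trees. -/
def Eqv : PHF A → PHF A → Prop
  | .atom a, .atom b => a = b
  | .node n f, .node m g => (∀ i : Fin n, ∃ j : Fin m, Eqv (f i) (g j)) ∧
      (∀ j : Fin m, ∃ i : Fin n, Eqv (f i) (g j))
  | .atom _, .node _ _ => False
  | .node _ _, .atom _ => False

theorem Eqv.refl : ∀ x : PHF A, Eqv x x
  | .atom a => by simp [Eqv]
  | .node n f => by
      simp only [Eqv]
      exact ⟨fun i => ⟨i, Eqv.refl (f i)⟩, fun i => ⟨i, Eqv.refl (f i)⟩⟩

theorem Eqv.symm : ∀ {x y : PHF A}, Eqv x y → Eqv y x
  | .atom a, .atom b, h => by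
      simp only [Eqv] at h ⊢
      exact h.symm
  | .node n f, .node m g, h => by
      simp only [Eqv] at h ⊢
      refine ⟨fun j => ?_, fun i => ?_⟩
      · obtain ⟨i, hi⟩ := h.2 j
        exact ⟨i, Eqv.symm hi⟩
      · obtain ⟨j, hj⟩ := h.1 i
        exact ⟨j, Eqv.symm hj⟩
  | .atom _, .node _ _, h => by simp [Eqv] at h
  | .node _ _, .atom _, h => by simp [Eqv] at h

theorem Eqv.trans : ∀ {x y z : PHF A}, Eqv x y → Eqv y z → Eqv x z
  | .atom a, .atom b, .atom c, h, h' => by
      simp only [Eqv] at h h' ⊢
      exact h.trans h'
  | .node n f, .node m g, .node k e, h, h' => by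
      simp only [Eqv] at h h' ⊢
      refine ⟨fun i => ?_, fun l => ?_⟩
      · obtain ⟨j, hj⟩ := h.1 i
        obtain ⟨l, hl⟩ := h'.1 j
        exact ⟨l, Eqv.trans hj hl⟩
      · obtain ⟨j, hj⟩ := h'.2 l
        obtain ⟨i, hi⟩ := h.2 j
        exact ⟨i, Eqv.trans hi hj⟩
  | .atom _, .node _ _, _, h, _ => by simp [Eqv] at h
  | .node _ _, .atom _, _, h, _ => by simp [Eqv] at h
  | .atom _, .atom _, .node _ _, _, h => by simp [Eqv] at h
  | .node _ _, .node _ _, .atom _, _, h => by simp [Eqv] at h

/-- The setoid of extensional equality. -/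
instance setoid (A : Type) : Setoid (PHF A) where
  r := Eqv
  iseqv := ⟨Eqv.refl, Eqv.symm, Eqv.trans⟩

end PHF

/-- Hereditarily finite objects over the atoms `A`. -/
def HF (A : Type) : Type := Quotient (PHF.setoid A)

namespace HF

variable {A B C : Type}

noncomputable instance : DecidableEq (HF A) := Classical.decEq _

/-- The object coded by a tree. -/
def ofP (x : PHF A) : HF A := Quotient.mk _ x

/-- The atom `a`, as an object. -/
def atom (a : A) : HF A := ofP (PHF.atom a)

/-- The set of the elements of an object (atoms have no elements). -/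
def toSet : HF A → Set (HF A) :=
  Quotient.lift (fun x : PHF A => match x with
    | .atom _ => (∅ : Set (HF A))
    | .node _ f => Set.range fun i => ofP (f i)) (by
    intro x y h
    match x, y, h with
    | .atom a, .atom b, _ => rfl
    | .node n f, .node m g, h =>
      have h' : PHF.Eqv (.node n f) (.node m g) := h
      simp only [PHF.Eqv] at h'
      ext z
      simp only [Set.mem_range]
      constructor
      · rintro ⟨i, rfl⟩
        obtain ⟨j, hj⟩ := h'.1 i
        exact ⟨j, Quotient.sound (PHF.Eqv.symm hj)⟩
      · rintro ⟨j, rfl⟩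
        obtain ⟨i, hi⟩ := h'.2 j
        exact ⟨i, Quotient.sound hi⟩
    | .atom _, .node _ _, h =>
      have h' : PHF.Eqv _ _ := h
      simp [PHF.Eqv] at h'
    | .node _ _, .atom _, h =>
      have h' : PHF.Eqv _ _ := h
      simp [PHF.Eqv] at h')

theorem toSet_finite (x : HF A) : x.toSet.Finite := by
  induction x using Quotient.inductionOn with
  | h x =>
    match x with
    | .atom a => exact Set.finite_empty
    | .node n f => exact Set.finite_range _

/-- The elements of an object (atoms have no elements). -/
noncomputable def elems (x : HF A) : Finset (HF A) := (toSet_finite x).toFinset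

/-- Membership in an object. -/
instance : Membership (HF A) (HF A) := ⟨fun x y => y ∈ x.elems⟩

theorem mem_def {x y : HF A} : y ∈ x ↔ y ∈ x.elems := Iff.rfl

/-- The finite set `s`, as an object. -/
noncomputable def mk (s : Finset (HF A)) : HF A :=
  ofP (PHF.node s.card fun i => ((s.equivFin.symm i : s) : HF A).out)

@[simp] theorem elems_atom (a : A) : (atom a).elems = ∅ := by
  ext z
  simp only [elems, Set.Finite.mem_toFinset, Finset.notMem_empty, iff_false]
  exact fun h => h

@[simp] theorem elems_mk (s : Finset (HF A)) : (mk s).elems = s := by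
  ext z
  simp only [elems, Set.Finite.mem_toFinset]
  have key : ∀ i, ofP ((s.equivFin.symm i : s) : HF A).out = ((s.equivFin.symm i : s) : HF A) :=
    fun i => Quotient.out_eq _
  constructor
  · rintro ⟨i, rfl⟩
    simp only [key]
    exact (s.equivFin.symm i).2
  · intro hz
    refine ⟨s.equivFin ⟨z, hz⟩, ?_⟩
    simp only [key]
    simp

@[simp] theorem mem_mk {s : Finset (HF A)} {y : HF A} : y ∈ mk s ↔ y ∈ s := by
  rw [mem_def, elems_mk]

@[simp] theorem not_mem_atom {a : A} {y : HF A} : ¬ y ∈ atom a := by
  rw [mem_def, elems_atom]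
  simp

theorem atom_injective : Function.Injective (atom : A → HF A) := by
  intro a b h
  have h' : PHF.Eqv (.atom a) (.atom b) := Quotient.exact h
  simpa only [PHF.Eqv] using h'

@[simp] theorem atom_inj {a b : A} : atom a = atom b ↔ a = b :=
  atom_injective.eq_iff

theorem mk_injective : Function.Injective (mk : Finset (HF A) → HF A) := by
  intro s t h
  rw [← elems_mk s, h, elems_mk]

@[simp] theorem mk_inj {s t : Finset (HF A)} : mk s = mk t ↔ s = t :=
  mk_injective.eq_iff

@[simp] theorem atom_ne_mk (a : A) (s : Finset (HF A)) : atom a ≠ mk s := by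
  intro h
  have h' : PHF.Eqv (.atom a) (.node s.card _) := Quotient.exact h
  simp [PHF.Eqv] at h'

@[simp] theorem mk_ne_atom (a : A) (s : Finset (HF A)) : mk s ≠ atom a :=
  fun h => atom_ne_mk a s h.symm

theorem eq_atom_or_mk (x : HF A) : (∃ a, x = atom a) ∨ (∃ s, x = mk s) := by
  induction x using Quotient.inductionOn with
  | h x =>
    match x with
    | .atom a => exact Or.inl ⟨a, rfl⟩
    | .node n f =>
      right
      refine ⟨Finset.univ.image fun i => ofP (f i), ?_⟩
      apply Quotient.sound
      show PHF.Eqv _ _
      simp only [PHF.Eqv]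
      set s : Finset (HF A) := Finset.univ.image fun i => ofP (f i) with hs
      constructor
      · intro i
        have hi : ofP (f i) ∈ s := by
          rw [hs]
          exact Finset.mem_image_of_mem _ (Finset.mem_univ i)
        refine ⟨s.equivFin ⟨_, hi⟩, ?_⟩
        simp only [Equiv.symm_apply_apply]
        exact PHF.Eqv.symm (Quotient.mk_out (f i))
      · intro j
        obtain ⟨z, hz⟩ := s.equivFin.symm j
        rw [hs] at hz
        obtain ⟨i, -, hi⟩ := Finset.mem_image.mp hz
        refine ⟨i, ?_⟩
        simp only
        subst hi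
        exact PHF.Eqv.symm (Quotient.mk_out (f i))

/-- Induction on hereditarily finite objects. -/
theorem ind {P : HF A → Prop} (h1 : ∀ a, P (atom a))
    (h2 : ∀ s : Finset (HF A), (∀ y ∈ s, P y) → P (mk s)) (x : HF A) : P x := by
  have key : ∀ x : PHF A, P (ofP x) := by
    intro x
    induction x with
    | atom a => exact h1 a
    | node n f ih =>
      rcases eq_atom_or_mk (ofP (PHF.node n f)) with ⟨a, ha⟩ | ⟨s, hs⟩
      · rw [ha]
        exact h1 a
      · rw [hs]
        apply h2
        intro y hy
        have hy' : y ∈ (mk s).toSet := by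
          have := (mem_mk (s := s) (y := y)).mpr hy
          rw [mem_def] at this
          simpa [elems] using this
        rw [← hs] at hy'
        obtain ⟨i, rfl⟩ := hy'
        exact ih i
  induction x using Quotient.inductionOn with
  | h x => exact key x

theorem mem_wf : WellFounded (fun y x : HF A => y ∈ x) := by
  constructor
  intro x
  induction x using ind with
  | h1 a => exact ⟨_, fun y hy => absurd hy not_mem_atom⟩
  | h2 s ih => exact ⟨_, fun y hy => ih y (mem_mk.mp hy)⟩

/-- The transitive closure: the elements, the elements of elements and so on. -/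
inductive TC : HF A → HF A → Prop
  | base {x y : HF A} : y ∈ x → TC x y
  | step {x y z : HF A} : TC x y → z ∈ y → TC x z

theorem TC_finite (x : HF A) : {y | TC x y}.Finite := by
  have key : ∀ x : HF A, {y | TC x y} ⊆ ↑x.elems ∪ ⋃ z ∈ x.elems, {y | TC z y} := by
    intro x y hy
    induction hy with
    | base h => exact Or.inl h
    | @step y z h1 h2 ih =>
      right
      rcases ih with ih | ih
      · exact Set.mem_biUnion ih (TC.base h2)
      · obtain ⟨w, hw, hw'⟩ := Set.mem_iUnion₂.mp ih
        exact Set.mem_biUnion hw (TC.step hw' h2)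
  induction x using ind with
  | h1 a =>
    refine Set.Finite.subset ?_ (key _)
    simp
  | h2 s ih =>
    refine Set.Finite.subset ?_ (key _)
    rw [elems_mk]
    exact (Finset.finite_toSet s).union (Set.Finite.biUnion (Finset.finite_toSet s) ih)

/-- The number of elements of the transitive closure of `x`. -/
noncomputable def tcCard (x : HF A) : ℕ := {y | TC x y}.ncard

/-- `x` is pure: no atom occurs in it. -/
def Pure (x : HF A) : Prop := (∀ a, x ≠ atom a) ∧ ∀ a, ¬ TC x (atom a)

/-- The nesting depth of large impure sets: the maximal number of impure sets with at least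
`T` elements (`Large n`) in an `∈`-chain that starts with `x`. -/
noncomputable def nest (large : ℕ → Prop) : HF A → ℕ :=
  mem_wf.fix fun x rec =>
    (x.elems.attach.sup fun y => rec y.1 y.2) +
      if large x.elems.card ∧ ¬ Pure x then 1 else 0

theorem nest_eq (large : ℕ → Prop) (x : HF A) : nest large x =
    (x.elems.sup fun y => nest large y) + if large x.elems.card ∧ ¬ Pure x then 1 else 0 := by
  have h := mem_wf.fix_eq (C := fun _ : HF A => ℕ) (fun x rec =>
    (x.elems.attach.sup fun y => rec y.1 y.2) +
      if large x.elems.card ∧ ¬ Pure x then 1 else 0) x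
  rw [nest]
  refine h.trans ?_
  congr 1
  exact Finset.sup_attach x.elems (fun y => nest large y)

/-- The map on objects induced by a map on atoms. -/
noncomputable def map (f : A → B) : HF A → HF B :=
  mem_wf.fix fun x rec =>
    if h : ∃ a, x = atom a then atom (f h.choose)
    else mk (x.elems.attach.image fun y => rec y.1 y.2)

@[simp] theorem map_atom (f : A → B) (a : A) : map f (atom a) = atom (f a) := by
  rw [map, mem_wf.fix_eq]
  have h : ∃ b, (atom a : HF A) = atom b := ⟨a, rfl⟩
  rw [dif_pos h]
  congr 1
  exact congrArg f (atom_injective h.choose_spec).symm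

@[simp] theorem map_mk (f : A → B) (s : Finset (HF A)) :
    map f (mk s) = mk (s.image (map f)) := by
  rw [map, mem_wf.fix_eq]
  have h : ¬ ∃ b, (mk s : HF A) = atom b := by simp
  rw [dif_neg h]
  congr 1
  ext z
  simp only [Finset.mem_image, Finset.mem_attach, true_and, Subtype.exists, elems_mk]
  constructor
  · rintro ⟨a, ha, rfl⟩
    exact ⟨a, ha, rfl⟩
  · rintro ⟨a, ha, rfl⟩
    exact ⟨a, ha, rfl⟩

end HF

end MP5e5
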