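import Pool.Agent.Lib.MP_5e5bb6_lc.Torus

/-! # The 1-in-3 instances -/

open Classical

namespace MP5e5

open HF

variable {p : ℕ} [Fact p.Prime]

theorem lhs_add (w : TW p) (x y : Fin 3 → ZMod p) : lhs w (fun k => x k + y k) = lhs w x + lhs w y := by
  unfold lhs
  rw [← Finset.sum_add_distrib]
  exact Finset.sum_congr rfl fun k _ => mul_add _ _ _

@[simp] theorem actT_cst (g : TE p → ZMod p) (b : Bool) : actT g (cst b) = cst b := rfl

theorem actT_arc (g : TE p → ZMod p) (e : TE p) (x k : ZMod p) : actT g (arc e x k) = arc e (x + g e) k := rfl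

theorem actT_aux (g : TE p → ZMod p) (w : TW p) (x : Fin 3 → ZMod p) (i : Fin 4) :
    actT g (aux w x i) = aux w (fun k => x k + g (cor w k)) i := rfl

theorem actT_add (g g' : TE p → ZMod p) (a : At p) : actT (g + g') a = actT g (actT g' a) := by
  rcases a with b | ⟨e, x, k⟩ | ⟨w, x, i⟩
  · rfl
  · change arc e (x + (g e + g' e)) k = arc e (x + g' e + g e) k
    congr 1
    ring
  · change aux w (fun k => x k + (g (cor w k) + g' (cor w k))) i =
      aux w (fun k => x k + g' (cor w k) + g (cor w k)) i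
    congr 1
    ext k
    ring

theorem actT_zero (a : At p) : actT (0 : TE p → ZMod p) a = a := by
  rcases a with b | ⟨e, x, k⟩ | ⟨w, x, i⟩
  · rfl
  · change arc e (x + 0) k = arc e x k
    rw [add_zero]
  · change aux w (fun k => x k + 0) i = aux w x i
    simp only [add_zero]

theorem bd_zero (w : TW p) : bd (0 : TE p → ZMod p) w = 0 := by
  have := bd_smul (0 : ZMod p) (0 : TE p → ZMod p) w
  simpa using this

private theorem RelT_act_aux {b : TW p → ZMod p} (g : TE p → ZMod p) {a₁ a₂ a₃ : At p} (h : RelT b a₁ a₂ a₃) :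
    RelT (fun w => b w + bd g w) (actT g a₁) (actT g a₂) (actT g a₃) := by
  rcases h with ⟨rfl, rfl, rfl⟩ | ⟨e, x, rfl, rfl, rfl⟩ | ⟨e, x, k, rfl, rfl, rfl⟩ | ⟨e, x, k, hk, rfl, rfl, rfl⟩ |
    ⟨w, x, hw, h⟩
  · exact Or.inl ⟨rfl, rfl, rfl⟩
  · exact Or.inr (Or.inl ⟨e, x + g e, rfl, rfl, rfl⟩)
  · refine Or.inr (Or.inr (Or.inl ⟨e, x + g e, k, rfl, ?_, ?_⟩))
    · rw [actT_arc]
      congr 1
      ring
    · rw [actT_arc]
      congr 1
      ring
  · refine Or.inr (Or.inr (Or.inr (Or.inl ⟨e, x + g e, k, hk, rfl, ?_, rfl⟩)))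
    rw [actT_arc]
    congr 1
    ring
  · refine Or.inr (Or.inr (Or.inr (Or.inr ⟨w, fun k => x k + g (cor w k), ?_, ?_⟩)))
    · rw [lhs_add]
      intro h'
      exact hw (add_right_cancel h')
    · rcases h with ⟨rfl, rfl, rfl⟩ | ⟨rfl, rfl, rfl⟩ | ⟨rfl, rfl, rfl⟩
      · exact Or.inl ⟨rfl, rfl, rfl⟩
      · refine Or.inr (Or.inl ⟨?_, rfl, rfl⟩)
        rw [actT_arc]
        congr 1
        ring
      · exact Or.inr (Or.inr ⟨rfl, rfl, rfl⟩)

/-- Equivariance of the instances: the gauge transformation `g` maps the instance of `b` to the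
instance of `b + bd g`. -/
theorem RelT_act (b : TW p → ZMod p) (g : TE p → ZMod p) (a₁ a₂ a₃ : At p) :
    RelT (fun w => b w + bd g w) (actT g a₁) (actT g a₂) (actT g a₃) ↔ RelT b a₁ a₂ a₃ := by
  constructor
  · intro h
    have h1 := RelT_act_aux (-g) h
    simp only [← actT_add, neg_add_cancel, actT_zero] at h1
    have h2 : (fun w => b w + bd g w + bd (-g) w) = b := by
      ext w
      rw [add_assoc, ← bd_add, add_neg_cancel, bd_zero, add_zero]
    rwa [h2] at h1
  · exact RelT_act_aux g

private theorem RelT_congr_aux {b b' : TW p → ZMod p} {a₁ a₂ a₃ : At p}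
    (h : ∀ w, (∀ k, cor w k ∈ nsT a₁ ∪ nsT a₂ ∪ nsT a₃) → b w = b' w) (hb : RelT b a₁ a₂ a₃) :
    RelT b' a₁ a₂ a₃ := by
  rcases hb with h0 | h0 | h0 | h0 | ⟨w, x, hw, h0⟩
  · exact Or.inl h0
  · exact Or.inr (Or.inl h0)
  · exact Or.inr (Or.inr (Or.inl h0))
  · exact Or.inr (Or.inr (Or.inr (Or.inl h0)))
  · refine Or.inr (Or.inr (Or.inr (Or.inr ⟨w, x, ?_, h0⟩)))
    rw [← h w]
    · exact hw
    · intro k
      have hk : ∀ i, cor w k ∈ nsT (aux w x i) := fun i => Finset.mem_image_of_mem _ (Finset.mem_univ k)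
      rcases h0 with ⟨-, rfl, -⟩ | ⟨-, rfl, -⟩ | ⟨-, rfl, -⟩
      all_goals exact Finset.mem_union_left _ (Finset.mem_union_right _ (hk _))

/-- The instances of `b` and `b'` agree on atoms `a₁, a₂, a₃` if `b w = b' w` for all equations
`w` all of whose coordinates lie in the natural support of one of the atoms. -/
theorem RelT_congr {b b' : TW p → ZMod p} {a₁ a₂ a₃ : At p}
    (h : ∀ w, (∀ k, cor w k ∈ nsT a₁ ∪ nsT a₂ ∪ nsT a₃) → b w = b' w) :
    RelT b a₁ a₂ a₃ ↔ RelT b' a₁ a₂ a₃ :=
  ⟨RelT_congr_aux h, RelT_congr_aux fun w hw => (h w hw).symm⟩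

theorem nsT_actT (g : TE p → ZMod p) (a : At p) : nsT (actT g a) = nsT a := by
  rcases a with b | ⟨e, x, k⟩ | ⟨w, x, i⟩ <;> rfl

theorem nsT_card (a : At p) : (nsT a).card ≤ 3 := by
  rcases a with b | ⟨e, x, k⟩ | ⟨w, x, i⟩
  · simp [nsT]
  · simp [nsT]
  · exact Finset.card_image_le.trans (by simp)

theorem actT_congr {g g' : TE p → ZMod p} {a : At p} (h : ∀ e ∈ nsT a, g e = g' e) : actT g a = actT g' a := by
  rcases a with b | ⟨e, x, k⟩ | ⟨w, x, i⟩
  · rfl
  · change arc e (x + g e) k = arc e (x + g' e) k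
    rw [h e (Finset.mem_singleton_self e)]
  · change aux w (fun k => x k + g (cor w k)) i = aux w (fun k => x k + g' (cor w k)) i
    congr 1
    ext k
    rw [h (cor w k) (Finset.mem_image_of_mem _ (Finset.mem_univ k))]

theorem actT_fix {h : TE p → ZMod p} {a : At p} (ha : actT h a = a) : ∀ e ∈ nsT a, h e = 0 := by
  rcases a with b | ⟨e, x, k⟩ | ⟨w, x, i⟩
  · intro e he
    exact absurd he (Finset.notMem_empty e)
  · intro e' he'
    rw [Finset.mem_singleton.mp he']
    have h1 : (Sum.inr (Sum.inl (e, x + h e, k)) : At p) = Sum.inr (Sum.inl (e, x, k)) := ha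
    have h2 : x + h e = x := by
      have := Sum.inl.inj (Sum.inr.inj h1)
      exact (Prod.mk.inj (Prod.mk.inj this).2).1
    exact left_eq_add.mp h2.symm
  · intro e' he'
    obtain ⟨k, -, rfl⟩ := Finset.mem_image.mp he'
    have h1 : (Sum.inr (Sum.inr (w, (fun k => x k + h (cor w k)), i)) : At p) = Sum.inr (Sum.inr (w, x, i)) := ha
    have h2 : (fun k => x k + h (cor w k)) = x := by
      have := Sum.inr.inj (Sum.inr.inj h1)
      exact (Prod.mk.inj (Prod.mk.inj this).2).1
    exact left_eq_add.mp (congrFun h2 k).symm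

theorem Free_anti {S T : Finset (TE p)} (h : S ⊆ T) {w : TW p} (hw : Free T w) : Free S w :=
  ⟨fun i => ⟨fun h' => (hw.1 i).1 (h h'), fun h' => (hw.1 i).2 (h h')⟩,
    fun j => ⟨fun h' => (hw.2 j).1 (h h'), fun h' => (hw.2 j).2 (h h')⟩⟩

/-- the first coordinate of a free equation is not in `T` -/
theorem Free_cor {T : Finset (TE p)} {w : TW p} (hw : Free T w) : cor w 0 ∉ T := by
  by_cases h1 : w.2.2 = 0
  · rw [cor, if_pos h1, if_pos rfl]
    exact (hw.1 w.1).1
  · rw [cor, if_neg h1, if_pos rfl]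
    exact (hw.1 w.1).2

/-- The gauge system. -/
noncomputable def torusGS (p : ℕ) [Fact p.Prime] : GS p (TE p) (At p) where
  M := MT p
  Gd := GdT
  anti := by
    rintro S T g hST ⟨w, hw, h⟩
    exact ⟨w, Free_anti hST hw, h⟩
  addM := by
    rintro T g h hh ⟨w, hw, h'⟩
    refine ⟨w, hw, fun v hv => ?_⟩
    rw [bd_add, h' v hv, hh v, add_zero]
  ext := GdT_ext
  diff := GdT_diff
  ne := GdT_ne
  act := actT
  act_add := actT_add
  act_zero := actT_zero
  ns := nsT
  ns_card := nsT_card
  ns_act := nsT_actT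
  act_congr := actT_congr
  act_fix := actT_fix
  fix_ns := by
    intro a ha
    by_contra hne
    obtain ⟨e, he⟩ := Finset.nonempty_iff_ne_empty.mpr hne
    obtain ⟨h, hM, h0⟩ := exists_cycle e
    exact h0 (actT_fix (ha h hM) e he)
  R0 := RelT fun _ => 0
  R1 := RelT tau
  R0_inv := by
    intro h hM a b c
    have h1 := RelT_act (fun _ => (0 : ZMod p)) h a b c
    have h2 : (fun w => (0 : ZMod p) + bd h w) = fun _ => (0 : ZMod p) := by
      ext w
      rw [hM w, add_zero]
    rwa [h2] at h1
  R_tr := by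
    rintro T g ⟨w, hw, hg⟩ a b c ha hb hc
    have h1 := RelT_act (fun _ => (0 : ZMod p)) g a b c
    rw [← h1]
    refine RelT_congr fun v hv => ?_
    have hvw : v ≠ w := by
      rintro rfl
      refine Free_cor hw ?_
      have := hv 0
      rw [nsT_actT, nsT_actT, nsT_actT] at this
      exact Finset.union_subset (Finset.union_subset ha hb) hc this
    rw [zero_add, hg v hvw]

/-- the values of the auxiliary atoms -/
private def I2_aux (P0 P1 P2 : Bool) (i : Fin 4) : Bool :=
  if P1 = false then (if i = 0 then !P0 else if i = 3 then !P2 else false)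
  else if P0 = false then (if i = 1 then true else if i = 3 then !P2 else false)
  else (if i = 2 then true else false)

/-- the assignment -/
private noncomputable def I2_f : At p → Bool
  | Sum.inl b => b
  | Sum.inr (Sum.inl (_, x, k)) => decide ((-x).val < k.val)
  | Sum.inr (Sum.inr (_, x, i)) => I2_aux (decide (x 0 = 0)) (decide (x 1 = 0)) (decide (x 2 = 0)) i

private theorem I2_one : (1 : ZMod p).val = 1 := by
  have : Fact (1 < p) := ⟨(Fact.out : p.Prime).one_lt⟩
  exact ZMod.val_one p

private theorem I2_lt (x k : ZMod p) : (-(x + k)).val < (-k).val ↔ k ≠ 0 ∧ k.val ≤ (-x).val := by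
  have : NeZero p := ⟨(Fact.out : p.Prime).ne_zero⟩
  by_cases hk : k = 0
  · subst hk
    simp
  · have h1 : (-k).val = p - k.val := by
      rw [ZMod.neg_val, if_neg hk]
    have hk2 : k.val < p := ZMod.val_lt k
    have hk3 : 0 < k.val := by
      rw [Nat.pos_iff_ne_zero, Ne, ZMod.val_eq_zero]
      exact hk
    have hx2 : (-x).val < p := ZMod.val_lt (-x)
    have e1 : -(x + k) = -x + -k := by ring
    have h2 : (-(x + k)).val = ((-x).val + (p - k.val)) % p := by
      rw [e1, ZMod.val_add, h1]
    rw [h2, h1]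
    constructor
    · intro h
      refine ⟨hk, ?_⟩
      by_contra hc
      push Not at hc
      rw [Nat.mod_eq_of_lt (by omega)] at h
      omega
    · rintro ⟨-, h⟩
      have : ((-x).val + (p - k.val)) = ((-x).val - k.val) + p := by omega
      rw [this, Nat.add_mod_right, Nat.mod_eq_of_lt (by omega)]
      omega

private theorem I2_point (x : ZMod p) : (-x).val < (1 : ZMod p).val ↔ x = 0 := by
  rw [I2_one, Nat.lt_one_iff, ZMod.val_eq_zero, neg_eq_zero]

private theorem I2_point' (x : ZMod p) : (-(x + 1)).val < (-1 : ZMod p).val ↔ x ≠ 0 := by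
  rw [I2_lt x 1, I2_one]
  constructor
  · rintro ⟨-, h⟩ rfl
    simp at h
  · intro h
    refine ⟨one_ne_zero, ?_⟩
    rw [Nat.one_le_iff_ne_zero, Ne, ZMod.val_eq_zero, neg_eq_zero]
    exact h

private theorem I2_aux_ok (P0 P1 P2 : Bool) (h : ¬ (P0 = true ∧ P1 = true ∧ P2 = true)) :
    OneInThree P0 (I2_aux P0 P1 P2 0) (I2_aux P0 P1 P2 1) ∧
    OneInThree (!P1) (I2_aux P0 P1 P2 1) (I2_aux P0 P1 P2 2) ∧
    OneInThree P2 (I2_aux P0 P1 P2 2) (I2_aux P0 P1 P2 3) := by
  unfold OneInThree I2_aux
  cases P0 <;> cases P1 <;> cases P2 <;> simp at h ⊢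

/-- The untwisted instance is satisfiable. -/
theorem sat_zero : Sat (RelT fun _ : TW p => (0 : ZMod p)) := by
  have : NeZero p := ⟨(Fact.out : p.Prime).ne_zero⟩
  refine ⟨I2_f, ?_⟩
  have harc : ∀ (e : TE p) (x k : ZMod p), I2_f (arc e x k) = decide ((-x).val < k.val) := fun _ _ _ => rfl
  have hcst : ∀ b : Bool, I2_f (cst b : At p) = b := fun _ => rfl
  rintro a b c (⟨rfl, rfl, rfl⟩ | ⟨e, x, rfl, rfl, rfl⟩ | ⟨e, x, k, rfl, rfl, rfl⟩ | ⟨e, x, k, hk, rfl, rfl, rfl⟩ |
    ⟨w, x, hw, h⟩)
  · exact Or.inl ⟨rfl, rfl, rfl⟩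
  · rw [harc, hcst]
    left
    simp
  · rw [harc, harc, harc]
    have e1 : (-(x + k)).val < (1 : ZMod p).val ↔ x + k = 0 := I2_point (x + k)
    have e2 : (-(x + k + 1)).val < (-1 - k).val ↔ k + 1 ≠ 0 ∧ (k + 1).val ≤ (-x).val := by
      rw [← I2_lt x (k + 1), show x + k + 1 = x + (k + 1) by ring, show -1 - k = -(k + 1) by ring]
    have hx2 : (-x).val < p := ZMod.val_lt (-x)
    have hk2 : k.val < p := ZMod.val_lt k
    have e3 : x + k = 0 ↔ (-x).val = k.val := by
      constructor
      · intro h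
        have : -x = k := by linear_combination -h
        rw [this]
      · intro h
        have := ZMod.val_injective p h
        rw [← this]
        ring
    have e4 : (k + 1 ≠ 0 ∧ (k + 1).val ≤ (-x).val) ↔ k.val < (-x).val := by
      by_cases h : k.val + 1 < p
      · have h5 : (k + 1).val = k.val + 1 := by
          rw [ZMod.val_add, I2_one, Nat.mod_eq_of_lt h]
        rw [h5]
        constructor
        · rintro ⟨-, h6⟩
          omega
        · intro h6
          refine ⟨?_, by omega⟩
          intro h7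
          rw [h7, ZMod.val_zero] at h5
          omega
      · have h5 : k + 1 = 0 := by
          rw [← ZMod.val_eq_zero, ZMod.val_add, I2_one]
          have : k.val + 1 = p := by omega
          rw [this, Nat.mod_self]
        constructor
        · rintro ⟨h6, -⟩
          exact absurd h5 h6
        · intro h6
          omega
    have f1 : decide ((-(x + k)).val < (1 : ZMod p).val) = decide ((-x).val = k.val) :=
      decide_eq_decide.2 (e1.trans e3)
    have f2 : decide ((-(x + k + 1)).val < (-1 - k).val) = decide (k.val < (-x).val) :=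
      decide_eq_decide.2 (e2.trans e4)
    rw [f1, f2]
    unfold OneInThree
    rcases lt_trichotomy (-x).val k.val with h | h | h
    · right; right
      simp [h, h.ne, h.le]
    · right; left
      simp [h]
    · left
      simp [h, h.ne', h.le]
  · rw [harc, harc, hcst]
    have f1 : decide ((-(x + k)).val < (-k).val) = decide (k.val ≤ (-x).val) :=
      decide_eq_decide.2 ((I2_lt x k).trans ⟨fun h => h.2, fun h => ⟨hk, h⟩⟩)
    rw [f1]
    unfold OneInThree
    rcases lt_or_ge (-x).val k.val with h | h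
    · right; right
      simp [h]
    · right; left
      simp [h]
  · have hP : ¬ (decide (x 0 = 0) = true ∧ decide (x 1 = 0) = true ∧ decide (x 2 = 0) = true) := by
      rintro ⟨h0, h1, h2⟩
      apply hw
      unfold lhs
      refine Finset.sum_eq_zero fun i _ => ?_
      have : x i = 0 := by
        fin_cases i
        · exact of_decide_eq_true h0
        · exact of_decide_eq_true h1
        · exact of_decide_eq_true h2
      rw [this, mul_zero]
    obtain ⟨c1, c2, c3⟩ := I2_aux_ok _ _ _ hP
    have haux : ∀ i : Fin 4, I2_f (aux w x i) =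
        I2_aux (decide (x 0 = 0)) (decide (x 1 = 0)) (decide (x 2 = 0)) i := fun _ => rfl
    rcases h with ⟨rfl, rfl, rfl⟩ | ⟨rfl, rfl, rfl⟩ | ⟨rfl, rfl, rfl⟩
    · rw [harc, haux, haux, decide_eq_decide.2 (I2_point (x 0))]
      exact c1
    · rw [harc, haux, haux, decide_eq_decide.2 (I2_point' (x 1))]
      have : decide (x 1 ≠ 0) = !decide (x 1 = 0) := by simp
      rw [this]
      exact c2
    · rw [harc, haux, haux, decide_eq_decide.2 (I2_point (x 2))]
      exact c3

/-- The twisted instance is not satisfiable. -/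
theorem unsat_tau : ¬ Sat (RelT (tau : TW p → ZMod p)) := by
  have : NeZero p := ⟨(Fact.out : p.Prime).ne_zero⟩
  rintro ⟨f, hf⟩
  have hc : f (cst false) = false ∧ f (cst true) = true := by
    have := hf _ _ _ (Or.inl ⟨rfl, rfl, rfl⟩)
    unfold OneInThree at this
    generalize f (cst false) = u at *
    generalize f (cst true) = v at *
    revert this
    cases u <;> cases v <;> simp
  have h0 : ∀ e x, f (arc e x 0) = false := by
    intro e x
    have := hf _ _ _ (Or.inr (Or.inl ⟨e, x, rfl, rfl, rfl⟩))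
    rw [hc.2] at this
    unfold OneInThree at this
    revert this
    generalize f (arc e x 0) = u
    cases u <;> simp
  have h3 : ∀ e x k, OneInThree (f (arc e x k)) (f (arc e (x + k) 1)) (f (arc e (x + k + 1) (-1 - k))) := fun e x k =>
    hf _ _ _ (Or.inr (Or.inr (Or.inl ⟨e, x, k, rfl, rfl, rfl⟩)))
  have h4 : ∀ e x k, k ≠ 0 → f (arc e (x + k) (-k)) = !(f (arc e x k)) := by
    intro e x k hk
    have := hf _ _ _ (Or.inr (Or.inr (Or.inr (Or.inl ⟨e, x, k, hk, rfl, rfl, rfl⟩))))
    rw [hc.1] at this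
    unfold OneInThree at this
    revert this
    generalize f (arc e x k) = u
    generalize f (arc e (x + k) (-k)) = v
    cases u <;> cases v <;> simp
  -- arcs of length one
  have h5 : ∀ e, ∃ x, f (arc e x 1) = true := by
    intro e
    by_contra hcon
    push Not at hcon
    have h6 : ∀ x, f (arc e x 1) = false := fun x => by
      have := hcon x
      simpa using this
    have h7 : ∀ n : ℕ, n < p → ∀ x, f (arc e x (n : ZMod p)) = false := by
      intro n
      induction n with
      | zero =>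
        intro _ x
        rw [Nat.cast_zero]
        exact h0 e x
      | succ n ih =>
        intro hn x
        have e1 := h3 e x (n : ZMod p)
        rw [ih (by omega) x, h6] at e1
        have hne : ((n + 1 : ℕ) : ZMod p) ≠ 0 := by
          rw [Ne, ZMod.natCast_eq_zero_iff]
          exact Nat.not_dvd_of_pos_of_lt (Nat.succ_pos n) hn
        have e2 := h4 e x ((n + 1 : ℕ) : ZMod p) hne
        have e3 : x + ((n + 1 : ℕ) : ZMod p) = x + (n : ZMod p) + 1 := by
          push_cast
          ring
        have e4 : -((n + 1 : ℕ) : ZMod p) = -1 - (n : ZMod p) := by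
          push_cast
          ring
        rw [e3, e4] at e2
        rw [e2] at e1
        unfold OneInThree at e1
        revert e1
        generalize f (arc e x ((n + 1 : ℕ) : ZMod p)) = u
        cases u <;> simp
    have h8 : ∀ x k, f (arc e x k) = false := by
      intro x k
      have := h7 k.val (ZMod.val_lt k) x
      rwa [ZMod.natCast_zmod_val] at this
    have h9 := h3 e 0 0
    rw [h8, h8, h8] at h9
    unfold OneInThree at h9
    simp at h9
  choose X hX using h5
  have h6 : ∀ e, f (arc e (X e + 1) (-1)) = false := by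
    intro e
    have := h4 e (X e) 1 one_ne_zero
    rw [this, hX e]
    rfl
  have h7 : ∀ w, bd X w = tau w := by
    intro w
    by_contra hw
    have hw' : lhs w (fun k => X (cor w k)) ≠ tau w := hw
    have c1 := hf _ _ _ (Or.inr (Or.inr (Or.inr (Or.inr ⟨w, fun k => X (cor w k), hw', Or.inl ⟨rfl, rfl, rfl⟩⟩))))
    have c2 := hf _ _ _ (Or.inr (Or.inr (Or.inr (Or.inr ⟨w, fun k => X (cor w k), hw',
      Or.inr (Or.inl ⟨rfl, rfl, rfl⟩)⟩))))
    have c3 := hf _ _ _ (Or.inr (Or.inr (Or.inr (Or.inr ⟨w, fun k => X (cor w k), hw',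
      Or.inr (Or.inr ⟨rfl, rfl, rfl⟩)⟩))))
    rw [hX] at c1 c3
    rw [h6] at c2
    unfold OneInThree at c1 c2 c3
    revert c1 c2 c3
    generalize f (aux w (fun k => X (cor w k)) 0) = a0
    generalize f (aux w (fun k => X (cor w k)) 1) = a1
    generalize f (aux w (fun k => X (cor w k)) 2) = a2
    generalize f (aux w (fun k => X (cor w k)) 3) = a3
    cases a0 <;> cases a1 <;> cases a2 <;> cases a3 <;> simp
  have h8 := sum_bd X
  rw [Finset.sum_congr rfl (fun w _ => h7 w)] at h8
  unfold tau at h8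
  rw [Finset.sum_ite_eq' Finset.univ ((0, 0, 0) : TW p) (fun _ => (1 : ZMod p)), if_pos (Finset.mem_univ _)] at h8
  exact one_ne_zero h8

/-- The number of atoms. -/
theorem card_At : Fintype.card (At p) = 2 + 3 * p ^ 4 + 8 * p ^ 5 := by
  simp only [Fintype.card_sum, Fintype.card_prod, Fintype.card_bool, Fintype.card_fin, ZMod.card,
    Fintype.card_fun]
  ring

end MP5e5
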