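import Pool.Agent.Lib.MP_5e5bb6_lc.Gauge

/-! # The support lemma -/

open Classical

namespace MP5e5

open HF

theorem S3_TC_trans {A : Type} {x y z : HF A} (h1 : TC x y) (h2 : TC y z) : TC x z := by
  induction h2 with
  | base h => exact TC.step h1 h
  | step _ h ih => exact TC.step ih h

theorem S3_nest_le {A : Type} (large : ℕ → Prop) {x y : HF A} (h : TC x y) : nest large y ≤ nest large x := by
  have key : ∀ {x y : HF A}, y ∈ x → nest large y ≤ nest large x := by
    intro x y h
    rw [nest_eq large x]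
    exact (Finset.le_sup (f := fun y => nest large y) h).trans (Nat.le_add_right _ _)
  induction h with
  | base h => exact key h
  | step _ h ih => exact (key h).trans ih

namespace GS

variable {p : ℕ} [Fact p.Prime] {E A : Type} [Fintype E] [DecidableEq E] [Fintype A]
  (G : GS p E A)

/-- `H` is an intersection of submodules which contain `MS S` for sets `S` with at most `s`
elements. -/
def Gen (s : ℕ) (H : Submodule (ZMod p) (E → ZMod p)) : Prop :=
  ∀ g ∈ G.M, g ∉ H → ∃ K : Submodule (ZMod p) (E → ZMod p), H ≤ K ∧ g ∉ K ∧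
    ∃ S : Finset E, S.card ≤ s ∧ G.MS S ≤ K

theorem supp_of_gen_aux {s : ℕ} {H : Submodule (ZMod p) (E → ZMod p)} (hg : G.Gen s H) :
    ∀ (l : ℕ) (K : Submodule (ZMod p) (E → ZMod p)), H ≤ K → K ≤ G.M →
      Module.finrank (ZMod p) K ≤ Module.finrank (ZMod p) H + l →
      ∃ S : Finset E, S.card ≤ l * s ∧ K ⊓ G.MS S ≤ H := by
  intro l
  induction l with
  | zero =>
    intro K hHK _ hl
    refine ⟨∅, by simp, ?_⟩
    have : H = K := Submodule.eq_of_le_of_finrank_le hHK (by simpa using hl)
    rw [this]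
    exact inf_le_left
  | succ l ih =>
    intro K hHK hKM hl
    by_cases hKH : K ≤ H
    · exact ⟨∅, by simp, inf_le_left.trans hKH⟩
    · obtain ⟨g, hgK, hgH⟩ := Set.not_subset.mp hKH
      obtain ⟨K1, hHK1, hgK1, S1, hS1, hMS1⟩ := hg g (hKM hgK) hgH
      have hlt : K ⊓ K1 < K := by
        refine lt_of_le_of_ne inf_le_left ?_
        intro he
        have : g ∈ K ⊓ K1 := by
          rw [he]
          exact hgK
        exact hgK1 this.2
      have hfr := Submodule.finrank_lt_finrank_of_lt hlt
      obtain ⟨S', hS', hS'2⟩ := ih (K ⊓ K1) (le_inf hHK hHK1) (inf_le_left.trans hKM) (by omega)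
      refine ⟨S1 ∪ S', ?_, ?_⟩
      · calc (S1 ∪ S').card ≤ S1.card + S'.card := Finset.card_union_le _ _
          _ ≤ s + l * s := add_le_add hS1 hS'
          _ = (l + 1) * s := by ring
      · intro h hh
        have h1 : h ∈ G.MS S1 := ⟨hh.2.1, fun e he => hh.2.2 e (Finset.mem_union_left _ he)⟩
        have h2 : h ∈ G.MS S' := ⟨hh.2.1, fun e he => hh.2.2 e (Finset.mem_union_right _ he)⟩
        exact hS'2 ⟨⟨hh.1, hMS1 h1⟩, h2⟩

/-- A submodule of codimension at most `l` in `M` with `Gen s` has a support of size `l * s`. -/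
theorem supp_of_gen {s l : ℕ} {H : Submodule (ZMod p) (E → ZMod p)} (hH : H ≤ G.M)
    (hg : G.Gen s H) (hl : Module.finrank (ZMod p) G.M ≤ Module.finrank (ZMod p) H + l) :
    ∃ S : Finset E, S.card ≤ l * s ∧ G.MS S ≤ H := by
  obtain ⟨S, hS, hS2⟩ := G.supp_of_gen_aux hg l G.M hH le_rfl hl
  exact ⟨S, hS, fun h hh => hS2 ⟨hh.1, hh⟩⟩

theorem Stab_le_M (x : HF A) : G.Stab x ≤ G.M := fun _ hh => (G.mem_Stab.mp hh).1

/-- An object with at most `N < p ^ (l + 1)` images under `M` has a stabiliser of codimension at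
most `l`. -/
theorem codim_le {l : ℕ} {x : HF A} (s : Finset (HF A)) (hs : s.card < p ^ (l + 1))
    (hx : ∀ h ∈ G.M, G.hact h x ∈ s) :
    Module.finrank (ZMod p) G.M ≤ Module.finrank (ZMod p) (G.Stab x) + l := by
  have hp : 1 < p := (Fact.out : p.Prime).one_lt
  -- card M ≤ card Stab * card s
  have hcard : Nat.card G.M ≤ Nat.card (G.Stab x) * s.card := by
    have hfib : ∀ z ∈ s, ((Finset.univ : Finset G.M).filter fun h => G.hact h.1 x = z).card ≤
        Nat.card (G.Stab x) := by
      intro z _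
      by_cases hne : ((Finset.univ : Finset G.M).filter fun h => G.hact h.1 x = z).Nonempty
      · obtain ⟨h0, hh0⟩ := hne
        have hh0' : G.hact h0.1 x = z := (Finset.mem_filter.mp hh0).2
        rw [Nat.card_eq_fintype_card, ← Finset.card_univ]
        refine Finset.card_le_card_of_injOn
          (fun h => if hc : G.hact h.1 x = z then (⟨h.1 - h0.1, by
            rw [mem_Stab]
            refine ⟨G.M.sub_mem h.2 h0.2, ?_⟩
            rw [sub_eq_add_neg, add_comm, hact_add, hc, ← hh0', hact_neg_cancel]⟩ : G.Stab x)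
            else 0) (fun _ _ => Finset.mem_coe.mpr (Finset.mem_univ _)) ?_
        intro a ha b hb hab
        have ha' : G.hact a.1 x = z := (Finset.mem_filter.mp (Finset.mem_coe.mp ha)).2
        have hb' : G.hact b.1 x = z := (Finset.mem_filter.mp (Finset.mem_coe.mp hb)).2
        simp only [ha', hb', dif_pos, Subtype.mk.injEq] at hab
        exact Subtype.ext (sub_left_injective hab)
      · rw [Finset.not_nonempty_iff_eq_empty] at hne
        rw [hne]
        simp
    rw [Nat.card_eq_fintype_card (α := G.M), ← Finset.card_univ,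
      Finset.card_eq_sum_card_fiberwise (f := fun h : G.M => G.hact h.1 x) (t := s)
        (fun h _ => hx h.1 h.2)]
    calc ∑ z ∈ s, ((Finset.univ : Finset G.M).filter fun h => G.hact h.1 x = z).card
        ≤ ∑ _z ∈ s, Nat.card (G.Stab x) := Finset.sum_le_sum hfib
      _ = Nat.card (G.Stab x) * s.card := by
          rw [Finset.sum_const, smul_eq_mul, mul_comm]
  have h1 : Nat.card G.M = p ^ Module.finrank (ZMod p) G.M := by
    have := Module.card_eq_pow_finrank (K := ZMod p) (V := G.M)
    rw [ZMod.card] at this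
    rw [Nat.card_eq_fintype_card]
    exact this
  have h2 : Nat.card (G.Stab x) = p ^ Module.finrank (ZMod p) (G.Stab x) := by
    have := Module.card_eq_pow_finrank (K := ZMod p) (V := G.Stab x)
    rw [ZMod.card] at this
    rw [Nat.card_eq_fintype_card]
    exact this
  rw [h1, h2] at hcard
  have h3 : p ^ Module.finrank (ZMod p) G.M <
      p ^ (Module.finrank (ZMod p) (G.Stab x) + (l + 1)) := by
    rw [pow_add]
    exact lt_of_le_of_lt hcard (Nat.mul_lt_mul_of_pos_left hs (pow_pos (by omega) _))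
  have h4 := (Nat.pow_lt_pow_iff_right hp).mp h3
  omega

theorem gen_atom (a : A) : G.Gen 1 (G.Stab (atom a)) := by
  intro g hgM hg
  have hg' : G.act g a ≠ a := by
    intro h
    exact hg (G.mem_Stab.mpr ⟨hgM, by rw [hact_atom, h]⟩)
  have hex : ∃ e ∈ G.ns a, g e ≠ 0 := by
    by_contra hcon
    push Not at hcon
    apply hg'
    have := G.act_congr (g := g) (g' := 0) (a := a) (fun e he => by simpa using hcon e he)
    rw [this, G.act_zero]
  obtain ⟨e, he, hge⟩ := hex
  let K : Submodule (ZMod p) (E → ZMod p) := LinearMap.ker (LinearMap.proj (R := ZMod p) e)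
  refine ⟨K, ?_, ?_, {e}, by simp, ?_⟩
  · intro h hh
    have h2 := (G.mem_Stab.mp hh).2
    rw [hact_atom, atom_inj] at h2
    exact LinearMap.mem_ker.mpr (G.act_fix h2 e he)
  · intro h
    exact hge (LinearMap.mem_ker.mp h)
  · intro h hh
    exact LinearMap.mem_ker.mpr (hh.2 e (by simp))

theorem hact_mk_eq_of_maps {g : E → ZMod p} {s : Finset (HF A)}
    (h : ∀ y ∈ s, G.hact g y ∈ s) : G.hact g (mk s) = mk s := by
  rw [hact_mk]
  congr 1
  exact Finset.eq_of_subset_of_card_le (Finset.image_subset_iff.mpr h)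
    (by rw [Finset.card_image_of_injective _ (G.hact_injective g)])

theorem gen_big {c : ℕ} (s : Finset (HF A))
    (hs : ∀ y ∈ s, ∃ S : Finset E, S.card ≤ c ∧ G.MS S ≤ G.Stab y) :
    G.Gen c (G.Stab (mk s)) := by
  intro g hgM hg
  have hex : ∃ y ∈ s, G.hact g y ∉ s := by
    by_contra hcon
    push Not at hcon
    exact hg (G.mem_Stab.mpr ⟨hgM, G.hact_mk_eq_of_maps hcon⟩)
  obtain ⟨y, hy, hgy⟩ := hex
  obtain ⟨S, hS, hMS⟩ := hs y hy
  refine ⟨G.Stab (mk s) ⊔ G.Stab y, le_sup_left, ?_, S, hS, hMS.trans le_sup_right⟩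
  intro hmem
  obtain ⟨a, ha, b, hb, rfl⟩ := Submodule.mem_sup.mp hmem
  apply hgy
  rw [hact_add, (G.mem_Stab.mp hb).2, ← mem_mk (s := s)]
  have := G.mem_hact (g := a) (x := mk s) (y := y) (mem_mk.mpr hy)
  rwa [(G.mem_Stab.mp ha).2] at this

theorem gen_small {c : ℕ} (s : Finset (HF A)) (hp : s.card < p)
    (hs : ∀ y ∈ s, G.Gen c (G.Stab y)) : G.Gen c (G.Stab (mk s)) := by
  have hle : ∀ y ∈ s, G.Stab (mk s) ≤ G.Stab y := by
    intro y hy a ha
    by_contra hay
    have haM := (G.mem_Stab.mp ha).1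
    -- the map i ↦ (i a) y is injective from ZMod p to s
    have hmap : ∀ i : ZMod p, G.hact (i • a) y ∈ s := by
      intro i
      have h1 : i • a ∈ G.Stab (mk s) := Submodule.smul_mem _ _ ha
      have := G.mem_hact (g := i • a) (x := mk s) (y := y) (mem_mk.mpr hy)
      rw [(G.mem_Stab.mp h1).2] at this
      exact mem_mk.mp this
    have hinj : Function.Injective (fun i : ZMod p => G.hact (i • a) y) := by
      intro i j hij
      by_contra hne
      have hsub : i - j ≠ 0 := sub_ne_zero.mpr hne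
      have h1 : G.hact ((i - j) • a) y = y := by
        rw [sub_smul, sub_eq_add_neg, add_comm, hact_add]
        have hij' : G.hact (i • a) y = G.hact (j • a) y := hij
        rw [hij', hact_neg_cancel]
      have h2 : (i - j) • a ∈ G.Stab y := G.mem_Stab.mpr ⟨Submodule.smul_mem _ _ haM, h1⟩
      have h3 := Submodule.smul_mem (G.Stab y) (i - j)⁻¹ h2
      rw [smul_smul, inv_mul_cancel₀ hsub, one_smul] at h3
      exact hay h3
    have hcard : Fintype.card (ZMod p) ≤ s.card := by
      rw [← Finset.card_univ]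
      exact Finset.card_le_card_of_injOn _ (fun i _ => hmap i) hinj.injOn
    rw [ZMod.card] at hcard
    omega
  intro g hgM hg
  have hex : ∃ y ∈ s, g ∉ G.Stab y := by
    by_contra hcon
    push Not at hcon
    refine hg (G.mem_Stab.mpr ⟨hgM, G.hact_mk_eq_of_maps ?_⟩)
    intro y hy
    rw [(G.mem_Stab.mp (hcon y hy)).2]
    exact hy
  obtain ⟨y, hy, hgy⟩ := hex
  obtain ⟨K, hK1, hK2, hK3⟩ := hs y hy g hgM hgy
  exact ⟨K, (hle y hy).trans hK1, hK2, hK3⟩


theorem S3_hact_pure (h : E → ZMod p) {x : HF A} (hx : Pure x) : G.hact h x = x := by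
  induction x using HF.ind with
  | h1 a => exact absurd rfl (hx.1 a)
  | h2 s ih =>
    rw [hact_mk]
    congr 1
    have hs : ∀ y ∈ s, G.hact h y = y := by
      intro y hy
      refine ih y hy ⟨fun a ha => ?_, fun a ha => ?_⟩
      · subst ha
        exact hx.2 a (TC.base (mem_mk.mpr hy))
      · exact hx.2 a (S3_TC_trans (TC.base (mem_mk.mpr hy)) ha)
    ext z
    rw [Finset.mem_image]
    constructor
    · rintro ⟨y, hy, rfl⟩
      rwa [hs y hy]
    · intro hz
      exact ⟨z, hz, hs z hz⟩

theorem S3_TC_hact (h : E → ZMod p) {x y : HF A} (hy : TC x y) : TC (G.hact h x) (G.hact h y) := by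
  induction hy with
  | base h' => exact TC.base (G.mem_hact h')
  | step _ h' ih => exact TC.step ih (G.mem_hact h')

theorem S3_Gen_mono {s s' : ℕ} (hs : s ≤ s') {H : Submodule (ZMod p) (E → ZMod p)} (h : G.Gen s H) : G.Gen s' H := by
  intro g hg hgH
  obtain ⟨K, h1, h2, S, h3, h4⟩ := h g hg hgH
  exact ⟨K, h1, h2, S, h3.trans hs, h4⟩

theorem S3_Stab_le (x : HF A) : G.Stab x ≤ G.M := fun _ h => (G.mem_Stab.mp h).1

/-- SUPPORT LEMMA.  An object which is fixed by `M`, has a transitive closure with fewer than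
`p ^ (l + 1)` elements and nesting depth (of impure sets with at least `p` elements) at most `ρ`
has hereditarily supports with at most `3 + l ^ (ρ + 1)` elements. -/
theorem HS_of_bounds {x : HF A} {l ρ : ℕ} (hl : 1 ≤ l) (hx : ∀ h ∈ G.M, G.hact h x = x)
    (htc : tcCard x < p ^ (l + 1)) (hn : nest (fun m => p ≤ m) x ≤ ρ) :
    G.HS (3 + l ^ (ρ + 1)) x := by
  have hcod : ∀ y, TC x y → Module.finrank (ZMod p) G.M ≤ Module.finrank (ZMod p) (G.Stab y) + l := by
    intro y hy
    refine G.codim_le (l := l) (x := y) (TC_finite x).toFinset ?_ ?_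
    · rw [tcCard, Set.ncard_eq_toFinset_card _ (TC_finite x)] at htc
      exact htc
    · intro h hh
      rw [Set.Finite.mem_toFinset]
      have := G.S3_TC_hact h hy
      rw [hx h hh] at this
      exact this
  have hgen : ∀ y, TC x y → G.Gen (l ^ nest (fun m => p ≤ m) y) (G.Stab y) := by
    intro y
    induction y using HF.ind with
    | h1 a =>
      intro _
      exact G.S3_Gen_mono (Nat.one_le_pow _ _ hl) (G.gen_atom a)
    | h2 t ih =>
      intro hty
      have hel : ∀ y ∈ t, TC x y := fun y hy => TC.step hty (mem_mk.mpr hy)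
      have hsup : ∀ y ∈ t, nest (fun m => p ≤ m) y ≤ t.sup fun y => nest (fun m => p ≤ m) y :=
        fun y hy => Finset.le_sup (f := fun y => nest (fun m => p ≤ m) y) hy
      rw [nest_eq, elems_mk]
      by_cases hp : Pure (mk t)
      · intro g hg hgS
        exact absurd (G.mem_Stab.mpr ⟨hg, G.S3_hact_pure g hp⟩) hgS
      · by_cases hc : p ≤ t.card
        · rw [if_pos ⟨hc, hp⟩]
          refine G.gen_big t fun y hy => ?_
          obtain ⟨S, h1, h2⟩ := G.supp_of_gen (G.S3_Stab_le y) (ih y hy (hel y hy)) (hcod y (hel y hy))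
          refine ⟨S, h1.trans ?_, h2⟩
          rw [← pow_succ']
          exact Nat.pow_le_pow_right hl (Nat.add_le_add_right (hsup y hy) 1)
        · rw [if_neg (fun h => hc h.1), Nat.add_zero]
          exact G.gen_small t (not_le.mp hc) fun y hy =>
            G.S3_Gen_mono (Nat.pow_le_pow_right hl (hsup y hy)) (ih y hy (hel y hy))
  have hfin : ∀ y, (y = x ∨ TC x y) → G.HS (3 + l ^ (ρ + 1)) y := by
    intro y
    induction y using HF.ind with
    | h1 a =>
      intro _
      exact HS.atom a ((G.ns_card a).trans (Nat.le_add_right _ _))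
    | h2 t ih =>
      intro hy
      refine HS.mk t ?_ fun y hyt => ih y hyt (Or.inr ?_)
      · rcases hy with hy | hy
        · rw [hy, G.sp_of_inv hx]
          simp
        · obtain ⟨S, h1, h2⟩ := G.supp_of_gen (G.S3_Stab_le _) (hgen _ hy) (hcod _ hy)
          refine (G.sp_card_le (G.supp_iff.mpr h2)).trans (h1.trans ?_)
          rw [← pow_succ']
          refine le_trans (Nat.pow_le_pow_right hl (Nat.add_le_add_right ((S3_nest_le _ hy).trans hn) 1)) ?_
          exact Nat.le_add_left _ _
      · rcases hy with hy | hy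
        · rw [← hy]
          exact TC.base (mem_mk.mpr hyt)
        · exact TC.step hy (mem_mk.mpr hyt)
  exact hfin x (Or.inl rfl)

end GS

end MP5e5
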