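import Pool.Agent.Lib.MP_5e5bb6_lc.EvA
import Pool.Agent.Lib.MP_5e5bb6_lc.EvB
import Pool.Agent.Lib.MP_5e5bb6_lc.Sup
import Pool.Agent.Lib.MP_5e5bb6_lc.Inst

/-! # Main theorem -/

open Classical

namespace MP5e5

open HF

theorem nest_mono {A : Type} {l l' : ℕ → Prop} (h : ∀ m, l m → l' m) (x : HF A) :
    nest l x ≤ nest l' x := by
  have hif : ∀ x : HF A, (if l x.elems.card ∧ ¬ Pure x then 1 else 0) ≤
      if l' x.elems.card ∧ ¬ Pure x then 1 else 0 := by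
    intro x
    split_ifs with h1 h2
    · exact le_rfl
    · exact absurd ⟨h _ h1.1, h1.2⟩ h2
    · exact Nat.zero_le _
    · exact le_rfl
  induction x using HF.ind with
  | h1 a =>
    rw [nest_eq, nest_eq]
    refine Nat.add_le_add ?_ (hif _)
    rw [elems_atom]
    simp
  | h2 s ih =>
    rw [nest_eq, nest_eq]
    refine Nat.add_le_add (Finset.sup_mono_fun fun y hy => ih y ?_) (hif _)
    rwa [elems_mk] at hy

/-- Transport commutes with evaluation. -/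
theorem GS.tr {p : ℕ} [Fact p.Prime] {E A : Type} [Fintype E] [DecidableEq E] [Fintype A]
    (G : GS p E A) : ∀ t : Tm, G.TrOK t
  | .var i => G.tr_var i
  | .empty => G.tr_empty
  | .atoms => G.tr_atoms
  | .pair a b => G.tr_pair (GS.tr G a) (GS.tr G b)
  | .union a => G.tr_union (GS.tr G a)
  | .unique a => G.tr_unique (GS.tr G a)
  | .card a => G.tr_card (GS.tr G a)
  | .eq a b => G.tr_eq (GS.tr G a) (GS.tr G b)
  | .mem a b => G.tr_mem (GS.tr G a) (GS.tr G b)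
  | .rel a b c => G.tr_rel (GS.tr G a) (GS.tr G b) (GS.tr G c)
  | .neg a => G.tr_neg (GS.tr G a)
  | .conj a b => G.tr_conj (GS.tr G a) (GS.tr G b)
  | .comp s r φ => G.tr_comp (GS.tr G s) (GS.tr G r) (GS.tr G φ)

section M2

variable {p : ℕ} [Fact p.Prime] {E A : Type} [Fintype E] [DecidableEq E] [Fintype A]
  (G : GS p E A)

theorem M2_run_inv (P : Program) {h : E → ZMod p} (hM : h ∈ G.M) :
    ∀ j, G.hact h (run P G.R0 j) = run P G.R0 j
  | 0 => by simp [run, ff]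
  | j + 1 => by
    rw [run, ← G.eval_hact P.step hM]
    congr 1
    funext _
    exact M2_run_inv P hM j

theorem M2_sp_run (P : Program) (j : ℕ) : G.sp (run P G.R0 j) = ∅ :=
  G.sp_of_inv fun _ hM => M2_run_inv G P hM j

theorem M2_sp_eval (P : Program) (t : Tm) (j : ℕ) :
    G.sp (eval G.R0 t fun _ => run P G.R0 j) = ∅ := by
  apply G.sp_of_inv
  intro h hM
  rw [← G.eval_hact t hM]
  congr 1
  funext _
  exact M2_run_inv G P hM j

/-- A program with small resources on `R0` behaves in the same way on `R0` and on `R1`. -/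
theorem GS.accepts (P : Program) (N ρ : ℕ → ℕ) {l m : ℕ} (hl : 1 ≤ l)
    (hN : N (Fintype.card A) < p ^ (l + 1)) (hp : Fintype.card A < p ^ 6)
    (hm : 3 + l ^ (ρ (Fintype.card A) + 1) ≤ m)
    (h1 : 20 * (big P.step m + 1) < p) (h2 : 20 * (big P.halt m + 1) < p)
    (h3 : 20 * (big P.out m + 1) < p) (h : Accepts P N ρ G.R0) : Accepts P N ρ G.R1 := by
  obtain ⟨i, hi1, hi2, hi3, hi4⟩ := h
  obtain ⟨g, hg⟩ := G.ne
  have hHS : ∀ j ≤ i, G.HS m (run P G.R0 j) := by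
    intro j hj
    have hb := hi4 j hj
    have hnest : nest (fun m => p ≤ m) (run P G.R0 j) ≤ ρ (Fintype.card A) := by
      refine (nest_mono ?_ _).trans hb.2
      intro k hk
      exact hp.le.trans (Nat.pow_le_pow_left hk 6)
    exact G.HS_mono hm (G.HS_of_bounds hl (fun h hM => M2_run_inv G P hM j)
      (lt_of_le_of_lt hb.1 hN) hnest)
  have hev : ∀ t, 20 * (big t m + 1) < p → ∀ j ≤ i,
      eval G.R1 t (fun _ => G.F (run P G.R0 j) g) = G.F (eval G.R0 t fun _ => run P G.R0 j) g := by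
    intro t ht j hj
    have := G.tr t m ht ∅ (by simp) (fun _ => run P G.R0 j) (fun _ => hHS j hj)
      (fun _ => by rw [M2_sp_run]) g (by rw [M2_sp_eval]; simpa using hg)
    exact this
  have hrun : ∀ j ≤ i, run P G.R1 j = G.F (run P G.R0 j) g := by
    intro j
    induction j with
    | zero =>
      intro _
      have h0 := hev .empty (by
        have : big Tm.empty m ≤ big P.step m := by
          show m ≤ _
          exact le_big _ _
        omega) 0 (Nat.zero_le _)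
      exact h0
    | succ j ih =>
      intro hj
      have hj' : j ≤ i := by omega
      rw [run, ih hj', hev _ h1 j hj']
      rfl
  have hff : ∀ t, 20 * (big t m + 1) < p → ∀ j ≤ i,
      (eval G.R1 t (fun _ => run P G.R1 j) = ff ↔ eval G.R0 t (fun _ => run P G.R0 j) = ff) := by
    intro t ht j hj
    rw [hrun j hj]
    exact G.tr_truth (G.tr t) ht (T := ∅) (by simp) (fun _ => hHS j hj)
      (fun _ => by rw [M2_sp_run]) hg
  refine ⟨i, ?_, ?_, ?_, ?_⟩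
  · intro j hj
    rw [hff _ h2 j hj.le]
    exact hi1 j hj
  · rw [Ne, hff _ h2 i le_rfl]
    exact hi2
  · rw [Ne, hff _ h3 i le_rfl]
    exact hi3
  · intro j hj
    have h4 : 4 * m < p := by
      have := le_big P.step m
      omega
    have hg' : G.Gd (G.sp (run P G.R0 j)) g := by
      rw [M2_sp_run]
      exact hg
    rw [hrun j hj]
    exact ⟨(G.F_tc h4 (hHS j hj) hg').trans (hi4 j hj).1,
      (G.F_nest _ h4 (hHS j hj) hg').trans (hi4 j hj).2⟩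

end M2

/-- The arithmetic of the parameters. -/
theorem exists_params (N ρ : ℕ → ℕ) (C₀ : ℕ)
    (h : ∀ C : ℕ, ∀ᶠ n in Filter.atTop, (C * (1 + Nat.log n (N n))) ^ (6 * (ρ n + 1)) ≤ n) :
    ∃ p : ℕ, p.Prime ∧ ∃ l : ℕ, 1 ≤ l ∧ 2 + 3 * p ^ 4 + 8 * p ^ 5 < p ^ 6 ∧
      N (2 + 3 * p ^ 4 + 8 * p ^ 5) < p ^ (l + 1) ∧
      C₀ * (l ^ (ρ (2 + 3 * p ^ 4 + 8 * p ^ 5) + 1) + 1) < p := by
  obtain ⟨n₀, hn₀⟩ := Filter.eventually_atTop.1 (h (6 * (2 * C₀ + 1)))
  obtain ⟨p, hp, hpp⟩ := Nat.exists_infinite_primes (n₀ + 9)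
  refine ⟨p, hpp, 6 * Nat.log (2 + 3 * p ^ 4 + 8 * p ^ 5) (N (2 + 3 * p ^ 4 + 8 * p ^ 5)) + 5, by omega, ?_, ?_, ?_⟩
  · have hp9 : 9 ≤ p := by omega
    have h4 : 0 < p ^ 4 := by positivity
    have h5 : p ^ 5 = p * p ^ 4 := by ring
    have h6 : p ^ 6 = p * (p * p ^ 4) := by ring
    nlinarith [Nat.mul_le_mul hp9 (le_refl (p ^ 4)), Nat.mul_le_mul hp9 (le_refl (p * p ^ 4))]
  all_goals
    have hp9 : 9 ≤ p := by omega
    have h4 : 0 < p ^ 4 := by positivity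
    have hlt : 2 + 3 * p ^ 4 + 8 * p ^ 5 < p ^ 6 := by
      have h5 : p ^ 5 = p * p ^ 4 := by ring
      have h6 : p ^ 6 = p * (p * p ^ 4) := by ring
      nlinarith [Nat.mul_le_mul hp9 (le_refl (p ^ 4)), Nat.mul_le_mul hp9 (le_refl (p * p ^ 4))]
    have hge : n₀ ≤ 2 + 3 * p ^ 4 + 8 * p ^ 5 := by
      have : p ≤ p ^ 4 := Nat.le_self_pow (by norm_num) p
      have : 0 ≤ 8 * p ^ 5 := Nat.zero_le _
      omega
    have h1n : 1 < 2 + 3 * p ^ 4 + 8 * p ^ 5 := by omega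
    generalize 2 + 3 * p ^ 4 + 8 * p ^ 5 = n at *
  · calc N n < n ^ (Nat.log n (N n) + 1) := Nat.lt_pow_succ_log_self h1n _
      _ ≤ (p ^ 6) ^ (Nat.log n (N n) + 1) := Nat.pow_le_pow_left hlt.le _
      _ = p ^ (6 * Nat.log n (N n) + 5 + 1) := by rw [← pow_mul]; congr 1
  · have h1 := hn₀ n hge
    set L := Nat.log n (N n) with hL
    have h2 : ((6 * (2 * C₀ + 1) * (1 + L)) ^ (ρ n + 1)) ^ 6 < p ^ 6 := by
      rw [← pow_mul, mul_comm (ρ n + 1) 6]
      exact lt_of_le_of_lt h1 hlt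
    have h3 : (6 * (2 * C₀ + 1) * (1 + L)) ^ (ρ n + 1) < p := lt_of_pow_lt_pow_left₀ 6 (Nat.zero_le _) h2
    refine lt_of_le_of_lt ?_ h3
    have h5 : (6 * L + 5) ^ (ρ n + 1) ≤ (6 * (1 + L)) ^ (ρ n + 1) := Nat.pow_le_pow_left (by omega) _
    have h6 : 1 ≤ (6 * L + 5) ^ (ρ n + 1) := Nat.one_le_pow _ _ (by omega)
    have h7 : 2 * C₀ + 1 ≤ (2 * C₀ + 1) ^ (ρ n + 1) := Nat.le_self_pow (by omega) _
    have h8 : (6 * (2 * C₀ + 1) * (1 + L)) ^ (ρ n + 1) = (2 * C₀ + 1) ^ (ρ n + 1) * (6 * (1 + L)) ^ (ρ n + 1) := by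
      rw [← mul_pow]; congr 1; ring
    rw [h8]
    calc C₀ * ((6 * L + 5) ^ (ρ n + 1) + 1) ≤ (2 * C₀ + 1) * (6 * L + 5) ^ (ρ n + 1) := by nlinarith
      _ ≤ (2 * C₀ + 1) ^ (ρ n + 1) * (6 * (1 + L)) ^ (ρ n + 1) := Nat.mul_le_mul h7 h5

theorem main (P : Program) (N ρ : ℕ → ℕ)
    (h : ∀ C : ℕ, ∀ᶠ n in Filter.atTop, (C * (1 + Nat.log n (N n))) ^ (6 * (ρ n + 1)) ≤ n) :
    ¬ Decides P N ρ := by
  intro hdec
  obtain ⟨C₁, hC₁⟩ := big_linear P.step
  obtain ⟨C₂, hC₂⟩ := big_linear P.halt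
  obtain ⟨C₃, hC₃⟩ := big_linear P.out
  obtain ⟨p, hp, l, hl, hlt, hN, hC⟩ := exists_params N ρ (20 * (4 * (C₁ + C₂ + C₃) + 1)) h
  have : Fact p.Prime := ⟨hp⟩
  have hcard : Fintype.card (At p) = 2 + 3 * p ^ 4 + 8 * p ^ 5 := card_At
  have hbig : ∀ t C, (∀ m, big t m ≤ C * (m + 1)) → C ≤ C₁ + C₂ + C₃ →
      20 * (big t (3 + l ^ (ρ (Fintype.card (At p)) + 1)) + 1) < p := by
    intro t C ht hCC
    rw [hcard]
    refine lt_of_le_of_lt ?_ hC
    set X := l ^ (ρ (2 + 3 * p ^ 4 + 8 * p ^ 5) + 1) with hX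
    have h1 := ht (3 + X)
    have h2 : C * (3 + X + 1) ≤ (C₁ + C₂ + C₃) * (3 + X + 1) := Nat.mul_le_mul_right _ hCC
    nlinarith
  have h0 : Accepts P N ρ (RelT fun _ : TW p => (0 : ZMod p)) := (hdec (At p) _).2 sat_zero
  have h1 : Accepts P N ρ (RelT (tau : TW p → ZMod p)) :=
    GS.accepts (torusGS p) P N ρ hl (by rw [hcard]; exact hN) (by rw [hcard]; exact hlt) le_rfl
      (hbig P.step C₁ hC₁ (by omega)) (hbig P.halt C₂ hC₂ (by omega)) (hbig P.out C₃ hC₃ (by omega)) h0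
  exact unsat_tau ((hdec (At p) _).1 h1)

end MP5e5
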