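import Pool.Agent.Lib.MP_5e5bb6_lc.Gauge

/-!
# The twisted linear systems on the torus and the 1-in-3 instances
-/

open Classical

namespace MP5e5

open HF

/-- The coordinates: a horizontal edge (`0`), a vertical edge (`1`) and an internal edge (`2`) at
every vertex of the torus `ZMod p × ZMod p`. -/
abbrev TE (p : ℕ) : Type := ZMod p × ZMod p × Fin 3

/-- The equations: two at every vertex. -/
abbrev TW (p : ℕ) : Type := ZMod p × ZMod p × Fin 2

/-- The three coordinates of an equation. -/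
def cor {p : ℕ} (w : TW p) (k : Fin 3) : TE p :=
  if w.2.2 = 0 then
    (if k = 0 then (w.1, w.2.1, 0) else if k = 1 then (w.1 - 1, w.2.1, 0) else (w.1, w.2.1, 2))
  else
    (if k = 0 then (w.1, w.2.1, 2) else if k = 1 then (w.1, w.2.1, 1) else (w.1, w.2.1 - 1, 1))

/-- The three signs of an equation. -/
def sgn {p : ℕ} (w : TW p) (k : Fin 3) : ZMod p :=
  if w.2.2 = 0 then (if k = 0 then 1 else -1) else (if k = 2 then -1 else 1)

/-- The left-hand side of the equation `w` for the values `x` of its three variables. -/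
def lhs {p : ℕ} (w : TW p) (x : Fin 3 → ZMod p) : ZMod p := ∑ k, sgn w k * x k

/-- The boundary of `g`: the left-hand sides of all equations. -/
def bd {p : ℕ} (g : TE p → ZMod p) (w : TW p) : ZMod p := lhs w fun k => g (cor w k)

/-- The right-hand side of the twisted system. -/
def tau {p : ℕ} (w : TW p) : ZMod p := if w = (0, 0, 0) then 1 else 0

/-- `w` lies on a row and on a column which are not touched by `S`. -/
def Free {p : ℕ} (S : Finset (TE p)) (w : TW p) : Prop :=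
  (∀ i, (i, w.2.1, (0 : Fin 3)) ∉ S ∧ (i, w.2.1, (2 : Fin 3)) ∉ S) ∧
  (∀ j, (w.1, j, (1 : Fin 3)) ∉ S ∧ (w.1, j, (2 : Fin 3)) ∉ S)

/-- The atoms: two constants, cyclic arcs (coordinate, start, length), and auxiliary atoms. -/
abbrev At (p : ℕ) : Type :=
  Bool ⊕ ((TE p × ZMod p × ZMod p) ⊕ (TW p × (Fin 3 → ZMod p) × Fin 4))

/-- The atom which must be `0` (`b = false`) or `1` (`b = true`). -/
def cst {p : ℕ} (b : Bool) : At p := Sum.inl b

/-- The arc with start `x` and length `k` at the coordinate `e`. -/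
def arc {p : ℕ} (e : TE p) (x k : ZMod p) : At p := Sum.inr (Sum.inl (e, x, k))

/-- The auxiliary atoms of the clause `(w, x)`. -/
def aux {p : ℕ} (w : TW p) (x : Fin 3 → ZMod p) (i : Fin 4) : At p :=
  Sum.inr (Sum.inr (w, x, i))

/-- The action on atoms. -/
def actT {p : ℕ} (g : TE p → ZMod p) : At p → At p
  | Sum.inl b => Sum.inl b
  | Sum.inr (Sum.inl (e, x, k)) => Sum.inr (Sum.inl (e, x + g e, k))
  | Sum.inr (Sum.inr (w, x, i)) => Sum.inr (Sum.inr (w, fun k => x k + g (cor w k), i))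

/-- The natural support of an atom. -/
def nsT {p : ℕ} : At p → Finset (TE p)
  | Sum.inl _ => ∅
  | Sum.inr (Sum.inl (e, _, _)) => {e}
  | Sum.inr (Sum.inr (w, _, _)) => Finset.univ.image (cor w)

/-- The 1-in-3 instance of the system with right-hand side `b`. -/
def RelT {p : ℕ} (b : TW p → ZMod p) (a₁ a₂ a₃ : At p) : Prop :=
  (a₁ = cst false ∧ a₂ = cst false ∧ a₃ = cst true) ∨
  (∃ e x, a₁ = arc e x 0 ∧ a₂ = arc e x 0 ∧ a₃ = cst true) ∨
  (∃ e x k, a₁ = arc e x k ∧ a₂ = arc e (x + k) 1 ∧ a₃ = arc e (x + k + 1) (-1 - k)) ∨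
  (∃ e x k, k ≠ 0 ∧ a₁ = arc e x k ∧ a₂ = arc e (x + k) (-k) ∧ a₃ = cst false) ∨
  (∃ w x, lhs w x ≠ b w ∧
    ((a₁ = arc (cor w 0) (x 0) 1 ∧ a₂ = aux w x 0 ∧ a₃ = aux w x 1) ∨
     (a₁ = arc (cor w 1) (x 1 + 1) (-1) ∧ a₂ = aux w x 1 ∧ a₃ = aux w x 2) ∨
     (a₁ = arc (cor w 2) (x 2) 1 ∧ a₂ = aux w x 2 ∧ a₃ = aux w x 3)))

end MP5e5
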