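import Pool.Agent.Lib.MP_5e5bb6_lc.TDef

/-! # The torus: moving defects -/

open Classical

namespace MP5e5

open HF

variable {p : ℕ} [Fact p.Prime]

/-- `w` and `w'` are joined by a chain that vanishes on `S`. -/
def Joined (S : Finset (TE p)) (w w' : TW p) : Prop :=
  ∃ π : TE p → ZMod p, (∀ e ∈ S, π e = 0) ∧
    ∀ v, bd π v = (if v = w then 1 else 0) - (if v = w' then 1 else 0)

private theorem G1_bd0 (g : TE p → ZMod p) (i j : ZMod p) :
    bd g (i, j, 0) = g (i, j, 0) - g (i - 1, j, 0) - g (i, j, 2) := by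
  simp [bd, lhs, cor, sgn, Fin.sum_univ_three]
  ring

private theorem G1_bd1 (g : TE p → ZMod p) (i j : ZMod p) :
    bd g (i, j, 1) = g (i, j, 2) + g (i, j, 1) - g (i, j - 1, 1) := by
  simp [bd, lhs, cor, sgn, Fin.sum_univ_three]
  ring

theorem bd_add (g h : TE p → ZMod p) (w : TW p) : bd (g + h) w = bd g w + bd h w := by
  unfold bd lhs
  rw [← Finset.sum_add_distrib]
  refine Finset.sum_congr rfl fun k _ => ?_
  change sgn w k * (g (cor w k) + h (cor w k)) = sgn w k * g (cor w k) + sgn w k * h (cor w k)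
  ring

theorem bd_smul (c : ZMod p) (g : TE p → ZMod p) (w : TW p) : bd (c • g) w = c * bd g w := by
  unfold bd lhs
  rw [Finset.mul_sum]
  refine Finset.sum_congr rfl fun k _ => ?_
  change sgn w k * (c * g (cor w k)) = c * (sgn w k * g (cor w k))
  ring

theorem sum_bd (g : TE p → ZMod p) : ∑ w, bd g w = 0 := by
  rw [Fintype.sum_prod_type]
  have h1 : ∀ i : ZMod p, ∑ y : ZMod p × Fin 2, bd g (i, y) =
      ∑ j : ZMod p, ((g (i, j, 0) - g (i - 1, j, 0)) + (g (i, j, 1) - g (i, j - 1, 1))) := by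
    intro i
    rw [Fintype.sum_prod_type]
    refine Finset.sum_congr rfl fun j _ => ?_
    rw [Fin.sum_univ_two, G1_bd0, G1_bd1]
    ring
  simp only [h1, Finset.sum_add_distrib, Finset.sum_sub_distrib]
  have h2 : ∑ i : ZMod p, ∑ j : ZMod p, g (i - 1, j, 0) = ∑ i : ZMod p, ∑ j : ZMod p, g (i, j, 0) :=
    Equiv.sum_comp (Equiv.subRight (1 : ZMod p)) (fun i => ∑ j : ZMod p, g (i, j, 0))
  have h3 : ∀ i : ZMod p, ∑ j : ZMod p, g (i, j - 1, 1) = ∑ j : ZMod p, g (i, j, 1) := fun i =>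
    Equiv.sum_comp (Equiv.subRight (1 : ZMod p)) (fun j => g (i, j, 1))
  simp only [h2, h3]
  ring

private theorem G1_single0 (i j : ZMod p) (v : TW p) : bd (Pi.single (i, j, (0 : Fin 3)) (1 : ZMod p)) v =
    (if v = (i, j, 0) then 1 else 0) - (if v = (i + 1, j, 0) then 1 else 0) := by
  obtain ⟨x, y, t⟩ := v
  fin_cases t
  · change bd _ (x, y, 0) = (if (x, y, (0 : Fin 2)) = (i, j, 0) then 1 else 0) - (if (x, y, (0 : Fin 2)) = (i + 1, j, 0) then 1 else 0)
    rw [G1_bd0]
    simp [Pi.single_apply, sub_eq_iff_eq_add]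
  · change bd _ (x, y, 1) = (if (x, y, (1 : Fin 2)) = (i, j, 0) then 1 else 0) - (if (x, y, (1 : Fin 2)) = (i + 1, j, 0) then 1 else 0)
    rw [G1_bd1]
    simp

private theorem G1_single1 (i j : ZMod p) (v : TW p) : bd (Pi.single (i, j, (1 : Fin 3)) (1 : ZMod p)) v =
    (if v = (i, j, 1) then 1 else 0) - (if v = (i, j + 1, 1) then 1 else 0) := by
  obtain ⟨x, y, t⟩ := v
  fin_cases t
  · change bd _ (x, y, 0) = (if (x, y, (0 : Fin 2)) = (i, j, 1) then 1 else 0) - (if (x, y, (0 : Fin 2)) = (i, j + 1, 1) then 1 else 0)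
    rw [G1_bd0]
    simp
  · change bd _ (x, y, 1) = (if (x, y, (1 : Fin 2)) = (i, j, 1) then 1 else 0) - (if (x, y, (1 : Fin 2)) = (i, j + 1, 1) then 1 else 0)
    rw [G1_bd1]
    simp [Pi.single_apply, sub_eq_iff_eq_add]

private theorem G1_single2 (i j : ZMod p) (v : TW p) : bd (Pi.single (i, j, (2 : Fin 3)) (1 : ZMod p)) v =
    (if v = (i, j, 1) then 1 else 0) - (if v = (i, j, 0) then 1 else 0) := by
  obtain ⟨x, y, t⟩ := v
  fin_cases t
  · change bd _ (x, y, 0) = (if (x, y, (0 : Fin 2)) = (i, j, 1) then 1 else 0) - (if (x, y, (0 : Fin 2)) = (i, j, 0) then 1 else 0)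
    rw [G1_bd0]
    simp [Pi.single_apply]
  · change bd _ (x, y, 1) = (if (x, y, (1 : Fin 2)) = (i, j, 1) then 1 else 0) - (if (x, y, (1 : Fin 2)) = (i, j, 0) then 1 else 0)
    rw [G1_bd1]
    simp [Pi.single_apply]

private theorem G1_zero (w : TW p) : bd (0 : TE p → ZMod p) w = 0 := by
  have := bd_smul (0 : ZMod p) (0 : TE p → ZMod p) w
  simpa using this

theorem G1_refl (S : Finset (TE p)) (w : TW p) : Joined S w w :=
  ⟨0, fun _ _ => rfl, fun v => by rw [G1_zero, sub_self]⟩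

theorem G1_symm {S : Finset (TE p)} {w w' : TW p} (h : Joined S w w') : Joined S w' w := by
  obtain ⟨π, h1, h2⟩ := h
  refine ⟨(-1 : ZMod p) • π, fun e he => ?_, fun v => ?_⟩
  · rw [Pi.smul_apply, h1 e he, smul_zero]
  · rw [bd_smul, h2]
    ring

theorem G1_trans {S : Finset (TE p)} {w w' w'' : TW p} (h : Joined S w w') (h' : Joined S w' w'') :
    Joined S w w'' := by
  obtain ⟨π, h1, h2⟩ := h
  obtain ⟨π', h1', h2'⟩ := h'
  refine ⟨π + π', fun e he => ?_, fun v => ?_⟩
  · rw [Pi.add_apply, h1 e he, h1' e he, add_zero]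
  · rw [bd_add, h2, h2']
    ring

private theorem G1_of_single {S : Finset (TE p)} {w w' : TW p} {e0 : TE p} (he : e0 ∉ S)
    (h : ∀ v, bd (Pi.single e0 (1 : ZMod p)) v = (if v = w then 1 else 0) - (if v = w' then 1 else 0)) :
    Joined S w w' := by
  refine ⟨Pi.single e0 1, fun e heS => ?_, h⟩
  rw [Pi.single_apply, if_neg]
  rintro rfl
  exact he heS

/-- one horizontal step -/
theorem G1_step0 {S : Finset (TE p)} {i j : ZMod p} (h : (i, j, (0 : Fin 3)) ∉ S) :
    Joined S (i, j, 0) (i + 1, j, 0) := G1_of_single h (G1_single0 i j)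

/-- one vertical step -/
theorem G1_step1 {S : Finset (TE p)} {i j : ZMod p} (h : (i, j, (1 : Fin 3)) ∉ S) :
    Joined S (i, j, 1) (i, j + 1, 1) := G1_of_single h (G1_single1 i j)

/-- one internal step -/
theorem G1_step2 {S : Finset (TE p)} {i j : ZMod p} (h : (i, j, (2 : Fin 3)) ∉ S) :
    Joined S (i, j, 1) (i, j, 0) := G1_of_single h (G1_single2 i j)

theorem G1_row {S : Finset (TE p)} {j : ZMod p} (h : ∀ i, (i, j, (0 : Fin 3)) ∉ S) (i i' : ZMod p) :
    Joined S (i, j, 0) (i', j, 0) := by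
  have key : ∀ n : ℕ, Joined S (i, j, 0) (i + n, j, 0) := by
    intro n
    induction n with
    | zero =>
      rw [Nat.cast_zero, add_zero]
      exact G1_refl S _
    | succ n ih =>
      have h2 : i + ((n + 1 : ℕ) : ZMod p) = (i + n) + 1 := by
        push_cast
        ring
      rw [h2]
      exact G1_trans ih (G1_step0 (h _))
  have h1 := key (i' - i).val
  rwa [ZMod.natCast_zmod_val, add_sub_cancel] at h1

theorem G1_col {S : Finset (TE p)} {i : ZMod p} (h : ∀ j, (i, j, (1 : Fin 3)) ∉ S) (j j' : ZMod p) :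
    Joined S (i, j, 1) (i, j', 1) := by
  have key : ∀ n : ℕ, Joined S (i, j, 1) (i, j + n, 1) := by
    intro n
    induction n with
    | zero =>
      rw [Nat.cast_zero, add_zero]
      exact G1_refl S _
    | succ n ih =>
      have h2 : j + ((n + 1 : ℕ) : ZMod p) = (j + n) + 1 := by
        push_cast
        ring
      rw [h2]
      exact G1_trans ih (G1_step1 (h _))
  have h1 := key (j' - j).val
  rwa [ZMod.natCast_zmod_val, add_sub_cancel] at h1

theorem joined_of_free {S : Finset (TE p)} {w w' : TW p} (hw : Free S w) (hw' : Free S w') :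
    Joined S w w' := by
  obtain ⟨i, j, t⟩ := w
  obtain ⟨i', j', t'⟩ := w'
  obtain ⟨hr, -⟩ := hw
  obtain ⟨-, hc⟩ := hw'
  have h1 : Joined S (i, j, t) (i, j, 0) := by
    fin_cases t
    · exact G1_refl S _
    · exact G1_step2 (hr i).2
  have h2 : Joined S (i', j', 1) (i', j', t') := by
    fin_cases t'
    · exact G1_step2 (hc j').2
    · exact G1_refl S _
  have h3 : Joined S (i, j, 0) (i', j, 0) := G1_row (fun x => (hr x).1) i i'
  have h4 : Joined S (i', j, 0) (i', j, 1) := G1_symm (G1_step2 (hc j).2)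
  have h5 : Joined S (i', j, 1) (i', j', 1) := G1_col (fun y => (hc y).1) j j'
  exact G1_trans h1 (G1_trans h3 (G1_trans h4 (G1_trans h5 h2)))

private theorem G1_avoid (T : Finset (ZMod p)) (hT : T.card < p) : ∃ x, x ∉ T := by
  by_contra hcon
  push Not at hcon
  have h1 : T = Finset.univ := Finset.eq_univ_of_forall hcon
  rw [h1, Finset.card_univ, ZMod.card] at hT
  exact lt_irrefl _ hT

theorem exists_free {S : Finset (TE p)} (hS : S.card < p) : ∃ w, Free S w := by
  obtain ⟨i, hi⟩ := G1_avoid (S.image fun e => e.1) (Finset.card_image_le.trans_lt hS)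
  obtain ⟨j, hj⟩ := G1_avoid (S.image fun e => e.2.1) (Finset.card_image_le.trans_lt hS)
  have h1 : ∀ (x : ZMod p) (k : Fin 3), (x, j, k) ∉ S := fun x k h =>
    hj (Finset.mem_image.2 ⟨(x, j, k), h, rfl⟩)
  have h2 : ∀ (y : ZMod p) (k : Fin 3), (i, y, k) ∉ S := fun y k h =>
    hi (Finset.mem_image.2 ⟨(i, y, k), h, rfl⟩)
  exact ⟨(i, j, 0), fun x => ⟨h1 x 0, h1 x 2⟩, fun y => ⟨h2 y 1, h2 y 2⟩⟩

/-- The automorphisms: the cycles. -/
def MT (p : ℕ) [Fact p.Prime] : Submodule (ZMod p) (TE p → ZMod p) where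
  carrier := {h | ∀ w, bd h w = 0}
  zero_mem' := fun w => by
    have := bd_smul (0 : ZMod p) (0 : TE p → ZMod p) w
    simpa using this
  add_mem' := by
    intro a b ha hb w
    rw [bd_add, ha w, hb w, add_zero]
  smul_mem' := by
    intro c a ha w
    rw [bd_smul, ha w, mul_zero]

/-- `g` satisfies the twisted system except at a free equation. -/
def GdT (T : Finset (TE p)) (g : TE p → ZMod p) : Prop :=
  ∃ w, Free T w ∧ ∀ v, v ≠ w → bd g v = tau v


theorem GdT_ext {S T : Finset (TE p)} {g : TE p → ZMod p} (h : GdT S g) (hST : S ⊆ T)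
    (hT : T.card < p) : ∃ g', GdT T g' ∧ ∀ e ∈ S, g' e = g e := by
  obtain ⟨w, hw, hg⟩ := h
  obtain ⟨w', hw'⟩ := exists_free hT
  have hw'S : Free S w' := ⟨fun i => ⟨fun h => (hw'.1 i).1 (hST h), fun h => (hw'.1 i).2 (hST h)⟩,
    fun j => ⟨fun h => (hw'.2 j).1 (hST h), fun h => (hw'.2 j).2 (hST h)⟩⟩
  obtain ⟨π, hπ, hb⟩ := joined_of_free hw hw'S
  refine ⟨g + (-(bd g w - tau w)) • π, ⟨w', hw', ?_⟩, ?_⟩
  · intro v hv
    rw [bd_add, bd_smul, hb v, if_neg hv]
    by_cases hvw : v = w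
    · rw [if_pos hvw, hvw]; ring
    · rw [if_neg hvw, hg v hvw]; ring
  · intro e he
    simp [hπ e he]

theorem GdT_diff {T : Finset (TE p)} {g g' : TE p → ZMod p} (h : GdT T g) (h' : GdT T g') :
    ∃ h ∈ MT p, ∀ e ∈ T, g e = g' e + h e := by
  obtain ⟨w, hw, hg⟩ := h
  obtain ⟨w', hw', hg'⟩ := h'
  obtain ⟨π, hπ, hb⟩ := joined_of_free hw hw'
  set k : TE p → ZMod p := g + (-1 : ZMod p) • g' with hk
  have hkb : ∀ v, bd k v = bd g v - bd g' v := by
    intro v
    rw [hk, bd_add, bd_smul]; ring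
  refine ⟨k + (-(bd k w)) • π, ?_, ?_⟩
  · have h1 : ∀ v, v ≠ w' → bd (k + (-(bd k w)) • π) v = 0 := by
      intro v hv
      rw [bd_add, bd_smul, hb v, if_neg hv]
      by_cases hvw : v = w
      · rw [if_pos hvw, hvw]; ring
      · rw [if_neg hvw, hkb v, hg v hvw, hg' v hv]; ring
    intro v
    by_cases hv : v = w'
    · have h2 := sum_bd (k + (-(bd k w)) • π)
      rw [Finset.sum_eq_single w' (fun b _ hb' => h1 b hb') (by simp)] at h2
      rw [hv]; exact h2
    · exact h1 v hv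
  · intro e he
    simp [hk, hπ e he]

theorem GdT_ne : ∃ g : TE p → ZMod p, GdT ∅ g := by
  refine ⟨0, (0, 0, 0), ⟨by simp, by simp⟩, ?_⟩
  intro v hv
  have := bd_smul (0 : ZMod p) (0 : TE p → ZMod p) v
  rw [smul_zero, zero_mul] at this
  rw [this, tau, if_neg hv]

private theorem G2_bd0 (g : TE p → ZMod p) (a b : ZMod p) :
    bd g (a, b, 0) = g (a, b, 0) - g (a - 1, b, 0) - g (a, b, 2) := by
  unfold bd lhs sgn cor
  rw [Fin.sum_univ_three]
  simp
  ring

private theorem G2_bd1 (g : TE p → ZMod p) (a b : ZMod p) :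
    bd g (a, b, 1) = g (a, b, 2) + g (a, b, 1) - g (a, b - 1, 1) := by
  unfold bd lhs sgn cor
  rw [Fin.sum_univ_three]
  simp
  ring

private theorem G2_mem (g : TE p → ZMod p)
    (h0 : ∀ a b, g (a, b, 0) - g (a - 1, b, 0) - g (a, b, 2) = 0)
    (h1 : ∀ a b, g (a, b, 2) + g (a, b, 1) - g (a, b - 1, 1) = 0) : g ∈ MT p := by
  intro w
  obtain ⟨a, b, k⟩ := w
  fin_cases k
  · exact (G2_bd0 g a b).trans (h0 a b)
  · exact (G2_bd1 g a b).trans (h1 a b)

/-- Every coordinate is moved by an automorphism. -/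
theorem exists_cycle (e : TE p) : ∃ h ∈ MT p, h e ≠ 0 := by
  obtain ⟨i, j, k⟩ := e
  have hne : ∀ x : ZMod p, x ≠ x + 1 := by
    intro x h
    exact one_ne_zero (left_eq_add.1 h)
  fin_cases k
  · refine ⟨fun e => if e.2.1 = j ∧ e.2.2 = 0 then 1 else 0, ?_, by simp⟩
    apply G2_mem
    · intro a b; simp
    · intro a b; simp
  · refine ⟨fun e => if e.1 = i ∧ e.2.2 = 1 then 1 else 0, ?_, by simp⟩
    apply G2_mem
    · intro a b; simp
    · intro a b; simp
  · let d : ZMod p → ZMod p → ZMod p := fun x a => if a = x then 1 else 0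
    let F : TE p → ZMod p := fun e =>
      if e.2.2 = 0 then d i e.1 * (d j e.2.1 - d (j + 1) e.2.1)
      else if e.2.2 = 1 then -((d i e.1 - d (i + 1) e.1) * d j e.2.1)
      else (d i e.1 - d (i + 1) e.1) * (d j e.2.1 - d (j + 1) e.2.1)
    have hF0 : ∀ a b, F (a, b, 0) = d i a * (d j b - d (j + 1) b) := fun a b => by simp [F]
    have hF1 : ∀ a b, F (a, b, 1) = -((d i a - d (i + 1) a) * d j b) := fun a b => by simp [F]
    have hF2 : ∀ a b, F (a, b, 2) = (d i a - d (i + 1) a) * (d j b - d (j + 1) b) :=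
      fun a b => by simp [F]
    have hd : ∀ x a, d x (a - 1) = d (x + 1) a := by
      intro x a
      simp only [d, sub_eq_iff_eq_add]
    refine ⟨F, ?_, ?_⟩
    · apply G2_mem
      · intro a b
        rw [hF0, hF0, hF2, hd]; ring
      · intro a b
        rw [hF1, hF1, hF2, hd]; ring
    · change F (i, j, 2) ≠ 0
      rw [hF2]
      simp only [d, if_pos rfl, if_neg (hne i), if_neg (hne j)]
      simp

end MP5e5
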