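import Pool.Agent.Lib.MP_5e5bb6_lc.Tr1

/-! # Transport of objects: cardinalities, transitive closure, nesting -/

open Classical

namespace MP5e5

open HF

theorem HF.TC_head {A : Type} {x y z : HF A} (h : y ∈ x) (h' : TC y z) : TC x z := by
  induction h' with
  | base h1 => exact TC.step (TC.base h) h1
  | step _ h2 ih => exact TC.step ih h2

theorem HF.Pure_mem {A : Type} {x y : HF A} (hx : Pure x) (h : y ∈ x) : Pure y := by
  refine ⟨fun a ha => hx.2 a ?_, fun a ha => hx.2 a (HF.TC_head h ha)⟩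
  rw [← ha]
  exact TC.base h

namespace GS

variable {p : ℕ} [Fact p.Prime] {E A : Type} [Fintype E] [DecidableEq E] [Fintype A]
  (G : GS p E A)

/-- A continuation of `g` from `sp x` to `sp x ∪ U`. -/
theorem exists_cont {x : HF A} {g : E → ZMod p} (hg : G.Gd (G.sp x) g) :
    ∃ c : Finset E → (E → ZMod p), ∀ U, (G.sp x ∪ U).card < p →
      G.Gd (G.sp x ∪ U) (c U) ∧ ∀ e ∈ G.sp x, c U e = g e := by
  have key : ∀ U : Finset E, ∃ c : E → ZMod p, (G.sp x ∪ U).card < p →
      G.Gd (G.sp x ∪ U) c ∧ ∀ e ∈ G.sp x, c e = g e := by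
    intro U
    by_cases h : (G.sp x ∪ U).card < p
    · obtain ⟨c, h1, h2⟩ := G.ext hg (Finset.subset_union_left (s₂ := U)) h
      exact ⟨c, fun _ => ⟨h1, h2⟩⟩
    · exact ⟨g, fun h' => absurd h' h⟩
  choose c hc using key
  exact ⟨c, hc⟩

theorem card_union_lt {k : ℕ} (hk : 4 * k < p) {x y : HF A} (hx : G.HS k x) (hy : G.HS k y) :
    (G.sp x ∪ G.sp y).card < p := by
  have h1 := G.sp_card hx
  have h2 := G.sp_card hy
  have h3 := Finset.card_union_le (G.sp x) (G.sp y)
  omega

theorem card_union3_lt {k : ℕ} (hk : 4 * k < p) {x y z : HF A} (hx : G.HS k x) (hy : G.HS k y)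
    (hz : G.HS k z) : (G.sp x ∪ G.sp y ∪ G.sp z).card < p := by
  have h1 := G.sp_card hx
  have h2 := G.sp_card hy
  have h4 := G.sp_card hz
  have h3 := Finset.card_union_le (G.sp x) (G.sp y)
  have h5 := Finset.card_union_le (G.sp x ∪ G.sp y) (G.sp z)
  omega

/-- Every transport of `y` along `g'` (equal to `g` on `sp x`) is the transport of `h y` along the
chosen continuation, where `h` fixes `x`. -/
theorem F_norm {x y : HF A} {g g' c : E → ZMod p} (hc : G.Gd (G.sp x ∪ G.sp y) c)
    (hc' : ∀ e ∈ G.sp x, c e = g e) (hg' : G.Gd (G.sp x ∪ G.sp y) g')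
    (hgg : ∀ e ∈ G.sp x, g' e = g e) :
    ∃ h ∈ G.M, G.hact h x = x ∧ G.F y g' = G.F (G.hact h y) c := by
  obtain ⟨h, hM, hh⟩ := G.diff hg' hc
  refine ⟨h, hM, ?_, ?_⟩
  · apply G.supp_sp x h hM
    intro e he
    have h1 := hh e (Finset.mem_union_left _ he)
    rw [hgg e he, hc' e he] at h1
    exact left_eq_add.mp h1
  · rw [G.F_hact c hM]
    apply G.F_congr
    intro e he
    exact hh e (Finset.mem_union_right _ he)

/-- Transport preserves the number of elements. -/
theorem F_card {k : ℕ} (hk : 4 * k < p) {x : HF A} (hx : G.HS k x) {g : E → ZMod p}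
    (hg : G.Gd (G.sp x) g) : (G.F x g).elems.card = x.elems.card := by
  obtain ⟨c, hc⟩ := G.exists_cont hg
  have hHS : ∀ y ∈ x.elems, G.HS k y := fun y hy => G.HS_of_mem hx (mem_def.mpr hy)
  have himg : (G.F x g).elems = x.elems.image fun y => G.F y (c (G.sp y)) := by
    ext z
    rw [← mem_def, G.mem_F, Finset.mem_image]
    constructor
    · rintro ⟨y, hy, g', h1, h2, rfl⟩
      obtain ⟨hc1, hc2⟩ := hc (G.sp y) (G.card_union_lt hk hx (hHS y (mem_def.mp hy)))
      obtain ⟨h, hM, hhx, hF⟩ := G.F_norm hc1 hc2 h1 h2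
      refine ⟨G.hact h y, ?_, ?_⟩
      · rw [← mem_def]
        have h3 := G.mem_hact (g := h) hy
        rwa [hhx] at h3
      · rw [G.sp_hact]
        exact hF.symm
    · rintro ⟨y, hy, rfl⟩
      obtain ⟨hc1, hc2⟩ := hc (G.sp y) (G.card_union_lt hk hx (hHS y hy))
      exact ⟨y, mem_def.mpr hy, c (G.sp y), hc1, hc2, rfl⟩
  rw [himg]
  apply Finset.card_image_of_injOn
  intro y hy y' hy' hF
  simp only at hF
  have hyS := hHS y (Finset.mem_coe.mp hy)
  have hyS' := hHS y' (Finset.mem_coe.mp hy')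
  obtain ⟨hc1, hc2⟩ := hc (G.sp y) (G.card_union_lt hk hx hyS)
  obtain ⟨hc1', hc2'⟩ := hc (G.sp y') (G.card_union_lt hk hx hyS')
  have hT := G.card_union3_lt hk hx hyS hyS'
  have hs1 : G.sp x ∪ G.sp y ⊆ G.sp x ∪ G.sp y ∪ G.sp y' := Finset.subset_union_left
  have hs2 : G.sp x ∪ G.sp y' ⊆ G.sp x ∪ G.sp y ∪ G.sp y' := by
    intro e he
    simp only [Finset.mem_union] at he ⊢
    tauto
  obtain ⟨g1, hg1, hg1'⟩ := G.ext hc1 hs1 hT
  obtain ⟨g2, hg2, hg2'⟩ := G.ext hc1' hs2 hT
  obtain ⟨h, hM, hh⟩ := G.diff hg2 hg1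
  have e1 : G.F y (c (G.sp y)) = G.F y g1 :=
    G.F_congr fun e he => (hg1' e (Finset.mem_union_right _ he)).symm
  have e2 : G.F y' (c (G.sp y')) = G.F y' g2 :=
    G.F_congr fun e he => (hg2' e (Finset.mem_union_right _ he)).symm
  have e3 : G.F y' g2 = G.F (G.hact h y') g1 := by
    rw [G.F_hact g1 hM]
    exact G.F_congr fun e he => hh e (Finset.mem_union_right _ he)
  have hyy : y = G.hact h y' := by
    refine G.F_inj hk hyS (G.HS_hact h hyS') (g := g1) ?_ ?_
    · rw [G.sp_hact]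
      refine G.anti ?_ hg1
      intro e he
      simp only [Finset.mem_union] at he ⊢
      tauto
    · rw [← e1, hF, e2, e3]
  have hsp : G.sp y = G.sp y' := by rw [hyy, G.sp_hact]
  rw [← hsp] at hF
  refine G.F_inj hk hyS hyS' (g := c (G.sp y)) ?_ hF
  rw [← hsp, Finset.union_self]
  exact G.anti Finset.subset_union_right hc1

/-- Pure objects are fixed by the action. -/
theorem hact_pure {x : HF A} (hx : Pure x) (g : E → ZMod p) : G.hact g x = x := by
  induction x using HF.ind with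
  | h1 a => exact absurd rfl (hx.1 a)
  | h2 s ih =>
    rw [hact_mk]
    congr 1
    ext z
    simp only [Finset.mem_image]
    constructor
    · rintro ⟨y, hy, rfl⟩
      rw [ih y hy (HF.Pure_mem hx (mem_mk.mpr hy))]
      exact hy
    · intro hz
      exact ⟨z, hz, ih z hz (HF.Pure_mem hx (mem_mk.mpr hz))⟩

/-- Pure objects are fixed by transport. -/
theorem F_pure {x : HF A} (hx : Pure x) {g : E → ZMod p} (hg : G.Gd ∅ g) : G.F x g = x := by
  induction x using HF.ind generalizing g with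
  | h1 a => exact absurd rfl (hx.1 a)
  | h2 s ih =>
    have hsp : ∀ y : HF A, Pure y → G.sp y = ∅ := fun y hy =>
      G.sp_of_inv fun g _ => G.hact_pure hy g
    apply HF.ext_set (G.F_isSet (fun a => (mk_ne_atom a s))) (fun a => mk_ne_atom a s)
    intro z
    rw [G.mem_F, hsp _ hx]
    constructor
    · rintro ⟨y, hy, g', h1, -, rfl⟩
      have hyp := HF.Pure_mem hx hy
      rw [hsp y hyp, Finset.union_self] at h1
      rw [ih y (mem_mk.mp hy) hyp h1]
      exact hy
    · intro hz
      have hzp := HF.Pure_mem hx hz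
      refine ⟨z, hz, g, ?_, by simp, ?_⟩
      · rw [hsp z hzp, Finset.union_self]
        exact hg
      · rw [ih z (mem_mk.mp hz) hzp hg]

theorem TC_HS {k : ℕ} {x y : HF A} (hx : G.HS k x) (h : TC x y) : G.HS k y := by
  induction h with
  | base h1 => exact G.HS_of_mem hx h1
  | step _ h2 ih => exact G.HS_of_mem ih h2

theorem TC_hact {g : E → ZMod p} {x y : HF A} (h : TC x y) : TC (G.hact g x) (G.hact g y) := by
  induction h with
  | base h1 => exact TC.base (G.mem_hact h1)
  | step _ h2 ih => exact TC.step ih (G.mem_hact h2)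

theorem TC_F {k : ℕ} (hk : 4 * k < p) {x z : HF A} (hx : G.HS k x) {g : E → ZMod p}
    (h : TC (G.F x g) z) : ∃ y, TC x y ∧ ∃ g', G.Gd (G.sp x ∪ G.sp y) g' ∧
      (∀ e ∈ G.sp x, g' e = g e) ∧ z = G.F y g' := by
  induction h with
  | base h0 =>
    obtain ⟨y, hy, g', h1, h2, hz⟩ := (G.mem_F).mp h0
    exact ⟨y, TC.base hy, g', h1, h2, hz⟩
  | @step w z _ h2 ih =>
    obtain ⟨y, hy, g', h3, h4, rfl⟩ := ih
    obtain ⟨y2, hy2, g'', h5, h6, rfl⟩ := (G.mem_F).mp h2
    have hyS := G.TC_HS hx hy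
    have hyS2 := G.HS_of_mem hyS hy2
    have hT := G.card_union3_lt hk hx hyS hyS2
    have hs1 : G.sp x ∪ G.sp y ⊆ G.sp x ∪ G.sp y ∪ G.sp y2 := Finset.subset_union_left
    have hs2 : G.sp y ∪ G.sp y2 ⊆ G.sp x ∪ G.sp y ∪ G.sp y2 := by
      intro e he
      simp only [Finset.mem_union] at he ⊢
      tauto
    obtain ⟨g1, hg1, hg1'⟩ := G.ext h3 hs1 hT
    obtain ⟨g2, hg2, hg2'⟩ := G.ext h5 hs2 hT
    obtain ⟨h, hM, hh⟩ := G.diff hg2 hg1
    have hfix : G.hact h y = y := by
      apply G.supp_sp y h hM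
      intro e he
      have h1 := hh e (Finset.mem_union_left _ (Finset.mem_union_right _ he))
      rw [hg2' e (Finset.mem_union_left _ he), h6 e he,
        ← hg1' e (Finset.mem_union_right _ he)] at h1
      exact left_eq_add.mp h1
    refine ⟨G.hact h y2, ?_, g1, ?_, ?_, ?_⟩
    · refine TC.step hy ?_
      have h3 := G.mem_hact (g := h) hy2
      rwa [hfix] at h3
    · rw [G.sp_hact]
      refine G.anti ?_ hg1
      intro e he
      simp only [Finset.mem_union] at he ⊢
      tauto
    · intro e he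
      rw [hg1' e (Finset.mem_union_left _ he), h4 e he]
    · rw [G.F_hact g1 hM]
      apply G.F_congr
      intro e he
      rw [← hg2' e (Finset.mem_union_right _ he)]
      exact hh e (Finset.mem_union_right _ he)

/-- Transport does not increase the transitive closure. -/
theorem F_tc {k : ℕ} (hk : 4 * k < p) {x : HF A} (hx : G.HS k x) {g : E → ZMod p}
    (hg : G.Gd (G.sp x) g) : tcCard (G.F x g) ≤ tcCard x := by
  obtain ⟨c, hc⟩ := G.exists_cont hg
  rw [tcCard, tcCard]
  have hsub : {z | TC (G.F x g) z} ⊆ (fun y => G.F y (c (G.sp y))) '' {y | TC x y} := by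
    intro z hz
    obtain ⟨y, hy, g', h1, h2, rfl⟩ := G.TC_F hk hx hz
    have hyS := G.TC_HS hx hy
    obtain ⟨hc1, hc2⟩ := hc (G.sp y) (G.card_union_lt hk hx hyS)
    obtain ⟨h, hM, hhx, hF⟩ := G.F_norm hc1 hc2 h1 h2
    refine ⟨G.hact h y, ?_, ?_⟩
    · show TC x (G.hact h y)
      have := G.TC_hact (g := h) hy
      rwa [hhx] at this
    · simp only [G.sp_hact]
      exact hF.symm
  exact (Set.ncard_le_ncard hsub ((TC_finite x).image _)).trans
    (Set.ncard_image_le (TC_finite x))

/-- Transport does not increase the nesting depth. -/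
theorem F_nest (large : ℕ → Prop) {k : ℕ} (hk : 4 * k < p) {x : HF A} (hx : G.HS k x)
    {g : E → ZMod p} (hg : G.Gd (G.sp x) g) : nest large (G.F x g) ≤ nest large x := by
  induction x using HF.ind generalizing g with
  | h1 a =>
    rw [nest_eq, nest_eq]
    simp only [F_atom, elems_atom, Finset.sup_empty, Finset.card_empty]
    have hp : ∀ b : A, ¬ Pure (atom b) := fun b hb => hb.1 b rfl
    simp [hp]
  | h2 s ih =>
    rw [nest_eq, nest_eq large (mk s), G.F_card hk hx hg]
    apply Nat.add_le_add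
    · apply Finset.sup_le
      intro z hz
      obtain ⟨y, hy, g', h1, -, rfl⟩ := (G.mem_F).mp (mem_def.mpr hz)
      refine (ih y (mem_mk.mp hy) (G.HS_of_mem hx hy)
        (G.anti Finset.subset_union_right h1)).trans ?_
      exact Finset.le_sup (f := nest large) (mem_def.mp hy)
    · by_cases h : large (mk s : HF A).elems.card ∧ ¬ Pure (mk s : HF A)
      · rw [if_pos h]
        split_ifs <;> omega
      · rw [if_neg h, if_neg]
        rintro ⟨h1, h2⟩
        apply h
        refine ⟨h1, fun hp => h2 ?_⟩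
        rw [G.F_pure hp (G.anti (Finset.empty_subset _) hg)]
        exact hp

end GS

end MP5e5
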